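import Pool.Agent.KK.StmtsC

/-!
# KK row ALP: the alpha theorem in abstract form
-/

set_option autoImplicit false

open scoped BigOperators

namespace Pool.Agent.KK.H92

variable {V : Type} [Fintype V] [DecidableEq V]

/-- counting up to rearrangement -/
theorem perm_count {m : ℕ} (X Z : Set (Fin m → V)) (hZ : ∀ g ∈ Z, Function.Injective g)
    (h : ∀ f ∈ X, ∃ g ∈ Z, Finset.univ.image f = Finset.univ.image g) :
    X.ncard ≤ m.factorial * Z.ncard := by
  classical
  have hsub : X ⊆ (fun p : (Fin m → V) × Equiv.Perm (Fin m) => p.1 ∘ p.2) '' (Z ×ˢ Set.univ) := by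
    intro f hf
    obtain ⟨g, hg, him⟩ := h f hf
    have hgi := hZ g hg
    have hfi : Function.Injective f := by
      have h1 : (Finset.univ.image f).card = m := by
        rw [him, Finset.card_image_of_injective _ hgi, Finset.card_univ, Fintype.card_fin]
      have h2 : (Finset.univ.image f).card = (Finset.univ : Finset (Fin m)).card := by
        rw [h1, Finset.card_univ, Fintype.card_fin]
      have h3 := Finset.card_image_iff.1 h2
      intro a b hab
      exact h3 (Finset.mem_coe.2 (Finset.mem_univ a)) (Finset.mem_coe.2 (Finset.mem_univ b)) hab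
    have hex : ∀ j, ∃ i, g i = f j := by
      intro j
      have : f j ∈ Finset.univ.image g := by
        rw [← him]
        exact Finset.mem_image_of_mem f (Finset.mem_univ j)
      obtain ⟨i, _, hi⟩ := Finset.mem_image.1 this
      exact ⟨i, hi⟩
    choose σ hσ using hex
    have hσi : Function.Injective σ := by
      intro a b hab
      apply hfi
      rw [← hσ a, ← hσ b, hab]
    refine ⟨(g, Equiv.ofBijective σ (Finite.injective_iff_bijective.1 hσi)),
      ⟨hg, Set.mem_univ _⟩, ?_⟩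
    funext j
    exact hσ j
  calc X.ncard ≤ _ := Set.ncard_le_ncard hsub (Set.toFinite _)
    _ ≤ (Z ×ˢ (Set.univ : Set (Equiv.Perm (Fin m)))).ncard := Set.ncard_image_le (Set.toFinite _)
    _ = m.factorial * Z.ncard := by
      rw [Set.ncard_prod, Set.ncard_univ, Nat.card_eq_fintype_card, Fintype.card_perm,
        Fintype.card_fin, mul_comm]

theorem image_cons {m : ℕ} (v : V) (g : Fin m → V) :
    Finset.univ.image (Fin.cons v g : Fin (m + 1) → V) = insert v (Finset.univ.image g) := by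
  ext x
  simp only [Finset.mem_image, Finset.mem_univ, true_and, Finset.mem_insert, Fin.exists_fin_succ,
    Fin.cons_zero, Fin.cons_succ]
  constructor
  · rintro (h | h)
    exacts [Or.inl h.symm, Or.inr h]
  · rintro (h | h)
    exacts [Or.inl h.symm, Or.inr h]

/-- the tuples which form an edge with `u` -/
def Lf (H : Finset (Finset V)) (m : ℕ) (u : V) : Finset (Fin (m + 1) → V) :=
  Finset.univ.filter fun f => u ∉ Finset.univ.image f ∧ insert u (Finset.univ.image f) ∈ H

theorem mem_Lf {H : Finset (Finset V)} {m : ℕ} {u : V} {f : Fin (m + 1) → V} :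
    f ∈ Lf H m u ↔ u ∉ Finset.univ.image f ∧ insert u (Finset.univ.image f) ∈ H := by
  unfold Lf
  rw [Finset.mem_filter]
  exact ⟨fun h => h.2, fun h => ⟨Finset.mem_univ _, h⟩⟩

theorem comm_eq (H : Finset (Finset V)) (m : ℕ) (u v : V) :
    comm H (m + 2) u v = (Lf H m u ∩ Lf H m v).card := by
  rw [← Set.ncard_coe_finset]
  unfold comm
  apply congrArg Set.ncard
  ext f
  rw [Finset.mem_coe, Finset.mem_inter, mem_Lf, mem_Lf]
  constructor
  · rintro ⟨h1, h2, h3, h4⟩
    exact ⟨⟨h1, h3⟩, h2, h4⟩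
  · rintro ⟨⟨h1, h3⟩, h2, h4⟩
    exact ⟨h1, h2, h3, h4⟩

open Classical in
/-- injective tuples which avoid `u` -/
noncomputable def Good (m : ℕ) (u : V) : Finset (Fin m → V) :=
  Finset.univ.filter fun g => Function.Injective g ∧ u ∉ Finset.univ.image g

theorem mem_Good {m : ℕ} {u : V} {g : Fin m → V} :
    g ∈ Good m u ↔ Function.Injective g ∧ u ∉ Finset.univ.image g := by
  unfold Good
  rw [Finset.mem_filter]
  exact ⟨fun h => h.2, fun h => ⟨Finset.mem_univ _, h⟩⟩

theorem card_Good (m : ℕ) (u : V) : (Fintype.card V - m) ^ m ≤ (Good m u).card := by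
  classical
  have h1 : Fintype.card (Fin m ↪ {x : V // x ≠ u}) ≤ (Good m u).card := by
    rw [← Finset.card_univ]
    apply Finset.card_le_card_of_injOn (fun e => fun i => (e i : V))
    · intro e _
      rw [Finset.mem_coe, mem_Good]
      constructor
      · intro a b hab
        exact e.injective (Subtype.ext hab)
      · intro hu
        obtain ⟨i, _, hi⟩ := Finset.mem_image.1 hu
        exact (e i).2 hi
    · intro e _ e' _ he
      ext i
      exact congrFun he i
  rw [Fintype.card_embedding_eq, Fintype.card_fin] at h1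
  have h2 : Fintype.card {x : V // x ≠ u} = Fintype.card V - 1 := by
    simp
  rw [h2] at h1
  refine le_trans ?_ h1
  have h3 := Nat.pow_sub_le_descFactorial (Fintype.card V - 1) m
  have h4 : Fintype.card V - 1 + 1 = Fintype.card V := by
    have : 0 < Fintype.card V := Fintype.card_pos_iff.2 ⟨u⟩
    omega
  rw [h4] at h3
  exact h3

theorem card_Lf {H : Finset (Finset V)} {m : ℕ} (hD : Dirac H (m + 2)) (u : V) :
    Fintype.card V * (Good m u).card ≤ 2 * (Lf H m u).card := by
  classical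
  have h1 : ((Good m u).sigma fun g => nb H (insert u (Finset.univ.image g))).card ≤
      (Lf H m u).card := by
    apply Finset.card_le_card_of_injOn (fun p => (Fin.cons p.2 p.1 : Fin (m + 1) → V))
    · rintro ⟨g, v⟩ hp
      rw [Finset.mem_coe, Finset.mem_sigma] at hp
      obtain ⟨hg, hv⟩ := hp
      obtain ⟨_, hu⟩ := mem_Good.1 hg
      unfold nb at hv
      rw [Finset.mem_filter] at hv
      obtain ⟨_, hv1, hv2⟩ := hv
      rw [Finset.mem_coe, mem_Lf]
      simp only
      rw [image_cons]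
      refine ⟨?_, ?_⟩
      · intro h
        rcases Finset.mem_insert.1 h with h | h
        · apply hv1
          rw [← h]
          exact Finset.mem_insert_self _ _
        · exact hu h
      · rw [Finset.insert_comm]
        exact hv2
    · rintro ⟨g, v⟩ _ ⟨g', v'⟩ _ he
      have h1 := Fin.cons_injective2 he
      obtain ⟨h1, h2⟩ := h1
      subst h1
      subst h2
      rfl
  rw [Finset.card_sigma] at h1
  calc Fintype.card V * (Good m u).card = ∑ g ∈ Good m u, Fintype.card V := by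
        rw [Finset.sum_const, smul_eq_mul, mul_comm]
    _ ≤ ∑ g ∈ Good m u, 2 * (nb H (insert u (Finset.univ.image g))).card := by
        apply Finset.sum_le_sum
        intro g hg
        apply hD
        obtain ⟨hi, hu⟩ := mem_Good.1 hg
        rw [Finset.card_insert_of_notMem hu, Finset.card_image_of_injective _ hi,
          Finset.card_univ, Fintype.card_fin]
        rfl
    _ = 2 * ∑ g ∈ Good m u, (nb H (insert u (Finset.univ.image g))).card := by
        rw [Finset.mul_sum]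
    _ ≤ 2 * (Lf H m u).card := Nat.mul_le_mul_left 2 h1

theorem card_image_Lf {H : Finset (Finset V)} {m : ℕ} (hU : Uni H (m + 2)) {u : V}
    {f : Fin (m + 1) → V} (hf : f ∈ Lf H m u) : (Finset.univ.image f).card = m + 1 := by
  obtain ⟨h1, h2⟩ := mem_Lf.1 hf
  have h3 := hU _ h2
  rw [Finset.card_insert_of_notMem h1] at h3
  omega

theorem sum_comm_ge {H : Finset (Finset V)} {m : ℕ} (hU : Uni H (m + 2)) (hD : Dirac H (m + 2))
    (u : V) : Fintype.card V * (Lf H m u).card ≤ 2 * ∑ v : V, (Lf H m u ∩ Lf H m v).card := by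
  classical
  have h1 : ∑ v : V, (Lf H m u ∩ Lf H m v).card
      = ∑ f ∈ Lf H m u, (nb H (Finset.univ.image f)).card := by
    have h2 : ∀ v : V, (Lf H m u ∩ Lf H m v).card
        = ∑ f ∈ Lf H m u, if f ∈ Lf H m v then 1 else 0 := by
      intro v
      rw [← Finset.filter_mem_eq_inter, Finset.card_filter]
    rw [Finset.sum_congr rfl fun v _ => h2 v, Finset.sum_comm]
    apply Finset.sum_congr rfl
    intro f _
    rw [← Finset.card_filter]
    apply congrArg Finset.card
    ext v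
    unfold nb
    rw [Finset.mem_filter, Finset.mem_filter, mem_Lf]
  rw [h1, Finset.mul_sum]
  calc Fintype.card V * (Lf H m u).card = ∑ f ∈ Lf H m u, Fintype.card V := by
        rw [Finset.sum_const, smul_eq_mul, mul_comm]
    _ ≤ ∑ f ∈ Lf H m u, 2 * (nb H (Finset.univ.image f)).card := by
        apply Finset.sum_le_sum
        intro f hf
        exact hD _ (card_image_Lf hU hf)

/-- almost all tuples are good -/
theorem good_real (m n : ℕ) (hn : 100 * m ^ 2 + 1 ≤ n) :
    99 / 100 * (n : ℝ) ^ m ≤ (((n - m) ^ m : ℕ) : ℝ) := by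
  have hmn : m ≤ n := by nlinarith
  have hn0 : (0 : ℝ) < n := by
    have : 0 < n := by omega
    exact_mod_cast this
  rw [Nat.cast_pow, Nat.cast_sub hmn]
  have h1 : (n : ℝ) - m = n * (1 + -((m : ℝ) / n)) := by
    field_simp
    ring
  rw [h1, mul_pow]
  have h2 : (m : ℝ) * (m / n) ≤ 1 / 100 := by
    rw [← mul_div_assoc, div_le_div_iff₀ hn0 (by norm_num)]
    have h3 : ((100 * m ^ 2 + 1 : ℕ) : ℝ) ≤ n := by exact_mod_cast hn
    push_cast at h3
    nlinarith
  have h3 : (m : ℝ) / n ≤ 1 := by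
    rw [div_le_one hn0]
    exact_mod_cast hmn
  have h4 := one_add_mul_le_pow (a := -((m : ℝ) / n)) (by linarith) m
  have h5 : (99 : ℝ) / 100 ≤ (1 + -((m : ℝ) / n)) ^ m := by
    refine le_trans ?_ h4
    linarith
  have h6 : (0 : ℝ) ≤ (n : ℝ) ^ m := by positivity
  nlinarith

theorem Lf_real {H : Finset (Finset V)} {m : ℕ} (hD : Dirac H (m + 2)) (u : V)
    (hn : 100 * m ^ 2 + 1 ≤ Fintype.card V) :
    99 / 200 * (Fintype.card V : ℝ) ^ (m + 1) ≤ ((Lf H m u).card : ℝ) := by
  have h1 := good_real m (Fintype.card V) hn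
  have h2 : (((Fintype.card V - m) ^ m : ℕ) : ℝ) ≤ ((Good m u).card : ℝ) := by
    exact_mod_cast card_Good m u
  have h3 : ((Fintype.card V * (Good m u).card : ℕ) : ℝ) ≤ ((2 * (Lf H m u).card : ℕ) : ℝ) := by
    exact_mod_cast card_Lf hD u
  push_cast at h3
  have h4 : (0 : ℝ) ≤ (Fintype.card V : ℝ) := Nat.cast_nonneg _
  have h5 : (Fintype.card V : ℝ) * (99 / 100 * (Fintype.card V : ℝ) ^ m) ≤
      (Fintype.card V : ℝ) * ((Good m u).card : ℝ) :=
    mul_le_mul_of_nonneg_left (le_trans h1 h2) h4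
  rw [pow_succ]
  linarith

theorem card_fun (m : ℕ) : Fintype.card (Fin m → V) = Fintype.card V ^ m := by
  rw [Fintype.card_fun, Fintype.card_fin]

/-- of three vertices two are adjacent -/
theorem three {H : Finset (Finset V)} {m : ℕ} (hD : Dirac H (m + 2)) {μ : ℝ} (hμ : μ ≤ 1 / 8)
    (hn : 100 * m ^ 2 + 1 ≤ Fintype.card V) (x y z : V) :
    μ * (Fintype.card V : ℝ) ^ (m + 1) ≤ comm H (m + 2) x y ∨
    μ * (Fintype.card V : ℝ) ^ (m + 1) ≤ comm H (m + 2) y z ∨
    μ * (Fintype.card V : ℝ) ^ (m + 1) ≤ comm H (m + 2) x z := by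
  classical
  by_contra hcon
  push Not at hcon
  obtain ⟨h1, h2, h3⟩ := hcon
  rw [comm_eq] at h1 h2 h3
  have hx := Lf_real hD x hn
  have hy := Lf_real hD y hn
  have hz := Lf_real hD z hn
  have e1 := Finset.card_union_add_card_inter (Lf H m x) (Lf H m y)
  have e2 := Finset.card_union_add_card_inter (Lf H m x ∪ Lf H m y) (Lf H m z)
  have e3 : ((Lf H m x ∪ Lf H m y) ∩ Lf H m z).card ≤
      (Lf H m x ∩ Lf H m z).card + (Lf H m y ∩ Lf H m z).card := by
    rw [Finset.union_inter_distrib_right]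
    exact Finset.card_union_le _ _
  have e4 : (Lf H m x ∪ Lf H m y ∪ Lf H m z).card ≤ Fintype.card V ^ (m + 1) := by
    rw [← card_fun]
    exact Finset.card_le_univ _
  have hN : (0 : ℝ) < (Fintype.card V : ℝ) ^ (m + 1) := by
    have : 0 < Fintype.card V := by omega
    positivity
  have e1' : ((Lf H m x ∪ Lf H m y).card : ℝ) + ((Lf H m x ∩ Lf H m y).card : ℝ)
      = (Lf H m x).card + (Lf H m y).card := by exact_mod_cast e1
  have e2' : ((Lf H m x ∪ Lf H m y ∪ Lf H m z).card : ℝ)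
      + (((Lf H m x ∪ Lf H m y) ∩ Lf H m z).card : ℝ)
      = (Lf H m x ∪ Lf H m y).card + (Lf H m z).card := by exact_mod_cast e2
  have e3' : (((Lf H m x ∪ Lf H m y) ∩ Lf H m z).card : ℝ) ≤
      (Lf H m x ∩ Lf H m z).card + (Lf H m y ∩ Lf H m z).card := by exact_mod_cast e3
  have e4' : ((Lf H m x ∪ Lf H m y ∪ Lf H m z).card : ℝ) ≤ (Fintype.card V : ℝ) ^ (m + 1) := by
    exact_mod_cast e4
  have hμ' : μ * (Fintype.card V : ℝ) ^ (m + 1) ≤ 1 / 8 * (Fintype.card V : ℝ) ^ (m + 1) :=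
    mul_le_mul_of_nonneg_right hμ hN.le
  linarith

/-- degrees in the exchange graph -/
theorem degree {H : Finset (Finset V)} {m : ℕ} (hU : Uni H (m + 2)) (hD : Dirac H (m + 2)) {μ : ℝ}
    (hμ : μ ≤ 1 / 8) (hn : 100 * m ^ 2 + 1 ≤ Fintype.card V) (u : V) :
    1 / 9 * (Fintype.card V : ℝ) ≤
      ({v : V | μ * (Fintype.card V : ℝ) ^ (m + 1) ≤ comm H (m + 2) u v}.ncard : ℝ) := by
  classical
  have hn1 : 0 < Fintype.card V := by omega
  have hn2 : (0 : ℝ) < (Fintype.card V : ℝ) := by exact_mod_cast hn1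
  set n : ℝ := (Fintype.card V : ℝ) with hnn
  have hn0 : 0 < n := hn2
  have hN : 0 < n ^ (m + 1) := by positivity
  set A : Finset V := Finset.univ.filter fun v => μ * n ^ (m + 1) ≤ (comm H (m + 2) u v : ℝ)
    with hA
  have hAn : ({v : V | μ * n ^ (m + 1) ≤ (comm H (m + 2) u v : ℝ)}.ncard : ℝ) = (A.card : ℝ) := by
    rw [← Set.ncard_coe_finset, hA]
    simp
  rw [hAn]
  have h1 := Lf_real hD u hn
  have h2 : ((Fintype.card V * (Lf H m u).card : ℕ) : ℝ) ≤
      ((2 * ∑ v : V, (Lf H m u ∩ Lf H m v).card : ℕ) : ℝ) := by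
    exact_mod_cast sum_comm_ge hU hD u
  push_cast at h2
  have h3 : ∀ v : V, ((Lf H m u ∩ Lf H m v).card : ℝ) ≤
      (if v ∈ A then n ^ (m + 1) else 0) + 1 / 8 * n ^ (m + 1) := by
    intro v
    by_cases hv : v ∈ A
    · rw [if_pos hv]
      have h4 : ((Lf H m u ∩ Lf H m v).card : ℝ) ≤ n ^ (m + 1) := by
        have h5 : (Lf H m u ∩ Lf H m v).card ≤ Fintype.card V ^ (m + 1) := by
          rw [← card_fun]
          exact Finset.card_le_univ _
        rw [hnn]
        exact_mod_cast h5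
      linarith
    · rw [if_neg hv]
      have h4 : ¬ μ * n ^ (m + 1) ≤ (comm H (m + 2) u v : ℝ) := by
        intro h
        apply hv
        rw [hA, Finset.mem_filter]
        exact ⟨Finset.mem_univ _, h⟩
      push Not at h4
      rw [comm_eq] at h4
      have h5 : μ * n ^ (m + 1) ≤ 1 / 8 * n ^ (m + 1) := mul_le_mul_of_nonneg_right hμ hN.le
      linarith
  have h4 : (∑ v : V, ((Lf H m u ∩ Lf H m v).card : ℝ)) ≤
      A.card * n ^ (m + 1) + n * (1 / 8 * n ^ (m + 1)) := by
    refine le_trans (Finset.sum_le_sum fun v _ => h3 v) ?_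
    rw [Finset.sum_add_distrib, Finset.sum_ite_mem, Finset.univ_inter, Finset.sum_const,
      Finset.sum_const, Finset.card_univ, nsmul_eq_mul, nsmul_eq_mul]
  have h5 : n * (99 / 200 * n ^ (m + 1)) ≤ n * ((Lf H m u).card : ℝ) :=
    mul_le_mul_of_nonneg_left h1 hn0.le
  have h6 : 1 / 9 * n * n ^ (m + 1) ≤ A.card * n ^ (m + 1) := by
    nlinarith [mul_pos hn0 hN]
  exact le_of_mul_le_mul_right h6 hN

theorem nodup_ofFn_card {m : ℕ} (g : Fin m → V) : (List.ofFn g).toFinset = Finset.univ.image g := by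
  ext x
  simp [List.mem_ofFn]

/-- lists in a class are tuples -/
theorem list_eq_ofFn {m : ℕ} (l : List V) (h : l.length = m) :
    ∃ g : Fin m → V, l = List.ofFn g := by
  subst h
  exact ⟨fun i => l.get i, (List.ofFn_get l).symm⟩

/-- tuples in the common link which belong to a class -/
theorem swap_count {H : Finset (Finset V)} {m q : ℕ} {T : Fin q → Set (List V)}
    (hT : ∀ i, Tup (m + 2) (T i)) {μ γ : ℝ} (hP : P2 (m + 2) T γ) (hγ : γ ≤ μ / 2) {u v : V}
    (huv : μ * (Fintype.card V : ℝ) ^ (m + 1) ≤ comm H (m + 2) u v) :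
    μ / 2 / ((m + 1).factorial : ℝ) * (Fintype.card V : ℝ) ^ (m + 1) ≤
        ({f : Fin (m + 1) → V | (∃ i, List.ofFn f ∈ T i) ∧
          u ∉ Finset.univ.image f ∧ v ∉ Finset.univ.image f ∧
          insert u (Finset.univ.image f) ∈ H ∧ insert v (Finset.univ.image f) ∈ H}.ncard : ℝ) := by
  classical
  set Y : Set (Fin (m + 1) → V) :=
    {f | ¬ ∃ i, ∃ l ∈ T i, l.toFinset = Finset.univ.image f} with hY
  have hP' : (Y.ncard : ℝ) ≤ γ * (Fintype.card V : ℝ) ^ (m + 1) := hP
  set X : Set (Fin (m + 1) → V) := {f | u ∉ Finset.univ.image f ∧ v ∉ Finset.univ.image f ∧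
    insert u (Finset.univ.image f) ∈ H ∧ insert v (Finset.univ.image f) ∈ H} with hX
  have huv' : μ * (Fintype.card V : ℝ) ^ (m + 1) ≤ (X.ncard : ℝ) := huv
  set Z : Set (Fin (m + 1) → V) := {f | (∃ i, List.ofFn f ∈ T i) ∧
          u ∉ Finset.univ.image f ∧ v ∉ Finset.univ.image f ∧
          insert u (Finset.univ.image f) ∈ H ∧ insert v (Finset.univ.image f) ∈ H} with hZ
  have h1 : (X \ Y).ncard ≤ (m + 1).factorial * Z.ncard := by
    apply perm_count
    · rintro g ⟨⟨i, hi⟩, _⟩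
      exact List.nodup_ofFn.1 (hT i _ hi).2
    · rintro f ⟨hf, hfY⟩
      have h2 : ∃ i, ∃ l ∈ T i, l.toFinset = Finset.univ.image f := by
        by_contra h
        exact hfY h
      obtain ⟨i, l, hl, hlf⟩ := h2
      obtain ⟨g, rfl⟩ := list_eq_ofFn (m := m + 1) l (hT i l hl).1
      rw [nodup_ofFn_card] at hlf
      refine ⟨g, ⟨⟨i, hl⟩, ?_⟩, hlf.symm⟩
      rw [hlf]
      exact hf
  have h2 : X.ncard ≤ (X \ Y).ncard + Y.ncard := by
    have h3 : X ⊆ (X \ Y) ∪ Y := by
      intro x hx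
      by_cases h : x ∈ Y
      · exact Or.inr h
      · exact Or.inl ⟨hx, h⟩
    exact le_trans (Set.ncard_le_ncard h3 (Set.toFinite _)) (Set.ncard_union_le _ _)
  have h3 : (X.ncard : ℝ) ≤ (m + 1).factorial * (Z.ncard : ℝ) + Y.ncard := by
    have : X.ncard ≤ (m + 1).factorial * Z.ncard + Y.ncard := le_trans h2 (by omega)
    exact_mod_cast this
  have hfac : (0 : ℝ) < ((m + 1).factorial : ℝ) := by exact_mod_cast Nat.factorial_pos _
  have hN : (0 : ℝ) ≤ (Fintype.card V : ℝ) ^ (m + 1) := by positivity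
  rw [div_mul_eq_mul_div, div_le_iff₀ hfac]
  have h4 : γ * (Fintype.card V : ℝ) ^ (m + 1) ≤ μ / 2 * (Fintype.card V : ℝ) ^ (m + 1) :=
    mul_le_mul_of_nonneg_right hγ hN
  linarith

/-- many edges with both end tuples in one class -/
theorem edge_count {H : Finset (Finset V)} {m q : ℕ} {T : Fin q → Set (List V)}
    (hP : P3 H (m + 2) T (1 / 8)) :
    1 / 4 / ((m + 2).factorial : ℝ) * (Fintype.card V : ℝ) ^ (m + 2) ≤
      ({f : Fin (m + 2) → V | ∃ i, EdgeIn H (m + 2) (T i) (List.ofFn f)}.ncard : ℝ) := by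
  classical
  set n : ℝ := (Fintype.card V : ℝ) with hnn
  have hn0 : 0 ≤ n := Nat.cast_nonneg _
  set gg : (Fin (m + 1) → V) → Finset V := fun f => gn H (m + 2) T f with hgg
  set E : Finset (Fin (m + 1) → V) :=
    Finset.univ.filter fun f => ((gg f).card : ℝ) < (1 / 2 - 1 / 8) * n with hE
  have hEc : (E.card : ℝ) ≤ 1 / 8 * n ^ (m + 1) := by
    have h1 : ({f : Fin (m + 1) → V | ((gg f).card : ℝ) < (1 / 2 - 1 / 8) * n}.ncard : ℝ) ≤
      1 / 8 * n ^ (m + 1) := hP
    have h2 : ({f : Fin (m + 1) → V | ((gg f).card : ℝ) < (1 / 2 - 1 / 8) * n}).ncard = E.card := by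
      rw [← Set.ncard_coe_finset, hE]
      simp
    rw [h2] at h1
    exact h1
  have hEn : E.card ≤ Fintype.card V ^ (m + 1) := by
    rw [← card_fun]
    exact Finset.card_le_univ _
  have hEC : ((Eᶜ).card : ℝ) = n ^ (m + 1) - E.card := by
    rw [Finset.card_compl, card_fun, Nat.cast_sub hEn]
    push_cast
    rfl
  set X : Set (Fin (m + 2) → V) := {p | OrdIn H (m + 2) T (Finset.univ.image p)} with hX
  set Z : Set (Fin (m + 2) → V) := {f | ∃ i, EdgeIn H (m + 2) (T i) (List.ofFn f)} with hZ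
  have h1 : X.ncard ≤ (m + 2).factorial * Z.ncard := by
    apply perm_count
    · rintro g ⟨i, hi⟩
      exact List.nodup_ofFn.1 hi.1
    · rintro p ⟨i, l, hl, hle⟩
      obtain ⟨g, rfl⟩ := list_eq_ofFn (m := m + 2) l hle.2.1
      rw [nodup_ofFn_card] at hl
      exact ⟨g, ⟨i, hle⟩, hl.symm⟩
  have h2 : ((Eᶜ).sigma fun f => gg f).card ≤ X.ncard := by
    rw [Set.ncard_eq_toFinset_card' X]
    apply Finset.card_le_card_of_injOn (fun p => (Fin.cons p.2 p.1 : Fin (m + 2) → V))
    · rintro ⟨f, v⟩ hp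
      rw [Finset.mem_coe, Finset.mem_sigma] at hp
      obtain ⟨_, hv⟩ := hp
      rw [Finset.mem_coe, Set.mem_toFinset]
      simp only [hgg] at hv
      unfold gn at hv
      rw [Finset.mem_filter] at hv
      change OrdIn H (m + 2) T (Finset.univ.image (Fin.cons v f : Fin (m + 2) → V))
      rw [image_cons]
      exact hv.2
    · rintro ⟨g, v⟩ _ ⟨g', v'⟩ _ he
      have h1 := Fin.cons_injective2 he
      obtain ⟨h1, h2⟩ := h1
      subst h1
      subst h2
      rfl
  have h3 : ((Eᶜ).card : ℝ) * ((1 / 2 - 1 / 8) * n) ≤ (((Eᶜ).sigma fun f => gg f).card : ℝ) := by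
    rw [Finset.card_sigma]
    push_cast
    rw [← nsmul_eq_mul]
    apply Finset.card_nsmul_le_sum
    intro f hf
    rw [Finset.mem_compl, hE, Finset.mem_filter] at hf
    by_contra hcon
    push Not at hcon
    exact hf ⟨Finset.mem_univ _, hcon⟩
  have h4 : (((Eᶜ).sigma fun f => gg f).card : ℝ) ≤ (m + 2).factorial * (Z.ncard : ℝ) := by
    have : ((Eᶜ).sigma fun f => gg f).card ≤ (m + 2).factorial * Z.ncard := le_trans h2 h1
    exact_mod_cast this
  have hfac : (0 : ℝ) < ((m + 2).factorial : ℝ) := by exact_mod_cast Nat.factorial_pos _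
  rw [div_mul_eq_mul_div, div_le_iff₀ hfac]
  have h5 : 7 / 8 * n ^ (m + 1) ≤ ((Eᶜ).card : ℝ) := by
    rw [hEC]
    linarith
  have h6 : 7 / 8 * n ^ (m + 1) * ((1 / 2 - 1 / 8) * n) ≤ ((Eᶜ).card : ℝ) * ((1 / 2 - 1 / 8) * n) := by
    apply mul_le_mul_of_nonneg_right h5
    positivity
  have h7 : n ^ (m + 2) = n ^ (m + 1) * n := pow_succ n (m + 1)
  have h8 : 0 ≤ n ^ (m + 1) * n := by positivity
  rw [h7]
  nlinarith

/-- the classes contain tuples outside every small set -/
theorem rich_of_size {m : ℕ} {T : Set (List V)} {c : ℝ} (hc : 0 < c) (hV : 0 < Fintype.card V)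
    (hT : c * (Fintype.card V : ℝ) ^ (m + 1) ≤
      ({f : Fin (m + 1) → V | List.ofFn f ∈ T}.ncard : ℝ)) : Rich T (c / (m + 2)) := by
  classical
  intro W hW
  by_contra hcon
  push Not at hcon
  have hn0 : (0 : ℝ) < Fintype.card V := by exact_mod_cast hV
  have h1 : ({f : Fin (m + 1) → V | List.ofFn f ∈ T}).ncard ≤
      (m + 1) * (W.card * Fintype.card V ^ m) := by
    have h2 : {f : Fin (m + 1) → V | List.ofFn f ∈ T} ⊆
        ((Finset.univ : Finset (Fin (m + 1))).biUnion
          (fun j => ((W ×ˢ (Finset.univ : Finset (Fin m → V))).image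
            (fun p => (Fin.insertNth j p.1 p.2 : Fin (m + 1) → V)))) : Finset (Fin (m + 1) → V)) := by
      intro f hf
      obtain ⟨v, hv, hvW⟩ := hcon _ hf
      obtain ⟨j, hj⟩ := (List.mem_ofFn' f v).1 hv
      rw [Finset.mem_coe, Finset.mem_biUnion]
      refine ⟨j, Finset.mem_univ _, Finset.mem_image.2 ⟨(v, j.removeNth f), ?_, ?_⟩⟩
      · rw [Finset.mem_product]
        exact ⟨hvW, Finset.mem_univ _⟩
      · simp only
        rw [← hj]
        exact Fin.insertNth_self_removeNth j f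
    refine le_trans (Set.ncard_le_ncard h2 (Set.toFinite _)) ?_
    rw [Set.ncard_coe_finset]
    refine le_trans Finset.card_biUnion_le ?_
    refine le_trans (Finset.sum_le_card_nsmul _ _ (W.card * Fintype.card V ^ m) ?_) ?_
    · intro j _
      refine le_trans Finset.card_image_le ?_
      rw [Finset.card_product, Finset.card_univ, card_fun]
    · rw [Finset.card_univ, Fintype.card_fin, smul_eq_mul]
  have h2 : (({f : Fin (m + 1) → V | List.ofFn f ∈ T}).ncard : ℝ) ≤
      (m + 1) * (W.card * (Fintype.card V : ℝ) ^ m) := by exact_mod_cast h1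
  have hm : (0 : ℝ) < (m : ℝ) + 2 := by positivity
  rw [div_mul_eq_mul_div, le_div_iff₀ hm] at hW
  have h3 : 0 < (Fintype.card V : ℝ) ^ m := by positivity
  have h4 : c * (Fintype.card V : ℝ) ^ (m + 1) ≤ (m + 1) * (W.card * (Fintype.card V : ℝ) ^ m) :=
    le_trans hT h2
  rw [pow_succ] at h4
  have h5 : c * (Fintype.card V : ℝ) * (Fintype.card V : ℝ) ^ m ≤
      ((m + 1) * W.card) * (Fintype.card V : ℝ) ^ m := by linarith
  have h6 := le_of_mul_le_mul_right h5 h3
  have h7 : 0 < c * (Fintype.card V : ℝ) := by positivity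
  have h8 : (0 : ℝ) ≤ (W.card : ℝ) := Nat.cast_nonneg _
  rcases h8.eq_or_lt with h9 | h9
  · rw [← h9] at h6
    linarith
  · nlinarith

/-- smaller constants -/
theorem Rich.mono {T : Set (List V)} {c c' : ℝ} (h : Rich T c) (hc : c' ≤ c) : Rich T c' := by
  intro W hW
  apply h W
  refine le_trans hW ?_
  exact mul_le_mul_of_nonneg_right hc (Nat.cast_nonneg _)

theorem joins_mono {H : Finset (Finset V)} {k M : ℕ} {T : Set (List V)} {c c' : ℝ} (hc : c' ≤ c)
    (h : Joins H k T c M) : Joins H k T c' M := by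
  intro a ha b hb hab
  obtain ⟨m, hm, h1⟩ := h a ha b hb hab
  refine ⟨m, hm, le_trans ?_ h1⟩
  exact mul_le_mul_of_nonneg_right hc (by positivity)

theorem joinsAll_mono {H : Finset (Finset V)} {k M : ℕ} {T : Set (List V)} {c c' : ℝ} (hc : c' ≤ c)
    (h : JoinsAll H k T c M) : JoinsAll H k T c' M := by
  intro a ha b hb hab t
  obtain ⟨m, hm, h0, h1⟩ := h a ha b hb hab t
  refine ⟨m, hm, h0, le_trans ?_ h1⟩
  exact mul_le_mul_of_nonneg_right hc (by positivity)

theorem P3_mono {H : Finset (Finset V)} {k q : ℕ} {T : Fin q → Set (List V)} {γ γ' : ℝ}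
    (h : γ ≤ γ') (hP : P3 H k T γ) : P3 H k T γ' := by
  unfold P3 at hP ⊢
  have h1 : {f : Fin (k - 1) → V | ((gn H k T f).card : ℝ) < (1 / 2 - γ') * Fintype.card V} ⊆
      {f : Fin (k - 1) → V | ((gn H k T f).card : ℝ) < (1 / 2 - γ) * Fintype.card V} := by
    intro f hf
    have hf' : ((gn H k T f).card : ℝ) < (1 / 2 - γ') * Fintype.card V := hf
    refine lt_of_lt_of_le hf' ?_
    exact mul_le_mul_of_nonneg_right (by linarith) (Nat.cast_nonneg _)
  have h2 := Set.ncard_le_ncard h1 (Set.toFinite _)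
  have h3 : (({f : Fin (k - 1) → V |
      ((gn H k T f).card : ℝ) < (1 / 2 - γ') * Fintype.card V}.ncard : ℕ) : ℝ) ≤
      (({f : Fin (k - 1) → V |
      ((gn H k T f).card : ℝ) < (1 / 2 - γ) * Fintype.card V}.ncard : ℕ) : ℝ) := by
    exact_mod_cast h2
  refine le_trans h3 (le_trans hP ?_)
  exact mul_le_mul_of_nonneg_right h (by positivity)

/-- **ALP** -/
theorem alp (chn : ChnStmt) (swc : SwcStmt) (blk : BlkStmt) (gdc : GdcStmt) (asm : AsmStmt)
    (cov : CovStmt) : AlpStmt := by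
  intro k M q C c κ μ hk hc hκ hμ hμ8 hq
  obtain ⟨m, rfl⟩ : ∃ m, k = m + 2 := ⟨k - 2, by omega⟩
  -- the constants
  obtain ⟨c₃, n₁, hc₃, hchn⟩ := chn (1 / 9) κ (by norm_num) (by norm_num) hκ
  have hfac1 : (0 : ℝ) < ((m + 1).factorial : ℝ) := by exact_mod_cast Nat.factorial_pos _
  have hfac2 : (0 : ℝ) < ((m + 2).factorial : ℝ) := by exact_mod_cast Nat.factorial_pos _
  obtain ⟨cs, n₂, hcs, hswc⟩ := swc (m + 2) q (μ / 2 / ((m + 1).factorial : ℝ)) (by omega) hq
    (by positivity)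
  obtain ⟨cb, n₃, hcb, hblk⟩ := blk (m + 2) q (1 / 4 / ((m + 2).factorial : ℝ)) (by omega) hq
    (by positivity)
  obtain ⟨cg, n₄, hcg, hgdc⟩ := gdc (m + 2) cb c₃ cs (by omega) hcb hc₃ hcs
  have hm2 : (0 : ℝ) < (m : ℝ) + 2 := by positivity
  set cA : ℝ := min (c / (m + 2)) cg with hcA
  have hcA0 : 0 < cA := lt_min (by positivity) hcg
  have hcA1 : cA ≤ c := by
    refine le_trans (min_le_left _ _) ?_
    rw [div_le_iff₀ hm2]
    have : (0 : ℝ) ≤ m := Nat.cast_nonneg _
    nlinarith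
  have hls : 0 < (gadLen (m + 2)).sum := by
    unfold gadLen
    simp
  obtain ⟨ξ, L, n₅, hξ, hasm⟩ := asm (m + 2) M q C (gadLen (m + 2)) cA (by omega) hcA0 hq hls
  obtain ⟨γc, n₆, hγc, hcov⟩ := cov (m + 2) q L ξ hk hq hξ
  refine ⟨min γc (min (μ / 2) (1 / 8)), n₁ + n₂ + n₃ + n₄ + n₅ + n₆ + (100 * m ^ 2 + 1), ?_, ?_⟩
  · exact lt_min hγc (lt_min (by positivity) (by norm_num))
  intro V _ _ H T i₀ hn hU hD hT hJ hJA hsize hP2 hP3 hpart htour
  have hn7 : 100 * m ^ 2 + 1 ≤ Fintype.card V := by omega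
  have hV : 0 < Fintype.card V := by omega
  have hγ1 : min γc (min (μ / 2) (1 / 8)) ≤ μ / 2 :=
    le_trans (min_le_right _ _) (min_le_left _ _)
  have hγ2 : min γc (min (μ / 2) (1 / 8)) ≤ 1 / 8 :=
    le_trans (min_le_right _ _) (min_le_right _ _)
  -- the exchange graph
  have hS : ∀ u v : V, μ * (Fintype.card V : ℝ) ^ (m + 1) ≤ comm H (m + 2) u v →
      Swp H (m + 2) T cs u v := by
    intro u v huv
    apply hswc V H T (by omega) hU hT u v
    exact swap_count hT hP2 hγ1 huv
  have hch : ∀ y z : V, c₃ * (Fintype.card V : ℝ) ^ 3 ≤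
        ({v : V × V × V | Swp H (m + 2) T cs y v.1 ∧ Swp H (m + 2) T cs v.1 v.2.1 ∧
          Swp H (m + 2) T cs v.2.1 v.2.2 ∧ Swp H (m + 2) T cs v.2.2 z}.ncard : ℝ) := by
    intro y z
    have h1 := hchn V (by omega)
      (fun u v => μ * (Fintype.card V : ℝ) ^ (m + 1) ≤ comm H (m + 2) u v) (by
        intro x y hxy
        have h2 : comm H (m + 2) x y = comm H (m + 2) y x := by
          rw [comm_eq, comm_eq, Finset.inter_comm]
        rw [← h2]
        exact hxy) (by
        intro x y z _ _ _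
        exact three hD hμ8 hn7 x y z) (by
        intro x
        exact degree hU hD hμ8 hn7 x) (by
        intro A hA1 hA2
        apply hpart A
        · refine le_trans (le_of_eq ?_) hA1
          ring
        · refine le_trans (le_of_eq ?_) hA2
          ring) y z
    refine le_trans h1 ?_
    have h2 : {v : V × V × V | μ * (Fintype.card V : ℝ) ^ (m + 1) ≤ comm H (m + 2) y v.1 ∧
        μ * (Fintype.card V : ℝ) ^ (m + 1) ≤ comm H (m + 2) v.1 v.2.1 ∧
        μ * (Fintype.card V : ℝ) ^ (m + 1) ≤ comm H (m + 2) v.2.1 v.2.2 ∧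
        μ * (Fintype.card V : ℝ) ^ (m + 1) ≤ comm H (m + 2) v.2.2 z} ⊆
        {v : V × V × V | Swp H (m + 2) T cs y v.1 ∧ Swp H (m + 2) T cs v.1 v.2.1 ∧
          Swp H (m + 2) T cs v.2.1 v.2.2 ∧ Swp H (m + 2) T cs v.2.2 z} := by
      rintro v ⟨h1, h2, h3, h4⟩
      exact ⟨hS _ _ h1, hS _ _ h2, hS _ _ h3, hS _ _ h4⟩
    exact_mod_cast Set.ncard_le_ncard h2 (Set.toFinite _)
  -- the gadgets
  have hb := hblk V H T (by omega) hU hT (edge_count (P3_mono hγ2 hP3))
  have hgad := hgdc V (Fin q) H T (by omega) hT hb hch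
  refine hasm V H T i₀ (by omega) hT (fun i => joins_mono hcA1 (hJ i)) (joinsAll_mono hcA1 hJA)
    (fun i => Rich.mono (rich_of_size hc hV (hsize i)) (min_le_left _ _)) ?_ htour ?_
  · intro y hy
    refine le_trans ?_ (hgad y hy)
    exact mul_le_mul_of_nonneg_right (min_le_right _ _) (by positivity)
  · exact hcov V H T (by omega) hU hT (P3_mono (min_le_left _ _) hP3)

end Pool.Agent.KK.H92
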