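import Pool.Agent.KK.StmtsC

/-!
# KK row CHN: swap chains of length four
-/

set_option autoImplicit false

open scoped BigOperators

namespace Pool.Agent.KK.H92

section

variable {V : Type} [Fintype V] [DecidableEq V]

open Classical in
/-- ordered adjacent pairs in `A × B` -/
noncomputable def prs (S : V → V → Prop) (A B : Finset V) : Finset (V × V) :=
  (A ×ˢ B).filter fun p => S p.1 p.2

theorem mem_prs {S : V → V → Prop} {A B : Finset V} {p : V × V} :
    p ∈ prs S A B ↔ p.1 ∈ A ∧ p.2 ∈ B ∧ S p.1 p.2 := by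
  classical
  unfold prs
  rw [Finset.mem_filter, Finset.mem_product]
  exact ⟨fun h => ⟨h.1.1, h.1.2, h.2⟩, fun h => ⟨⟨h.1, h.2.1⟩, h.2.2⟩⟩

open Classical in
/-- neighbours in `B` -/
noncomputable def nin (S : V → V → Prop) (B : Finset V) (x : V) : Finset V :=
  B.filter fun y => S x y

theorem mem_nin {S : V → V → Prop} {B : Finset V} {x y : V} :
    y ∈ nin S B x ↔ y ∈ B ∧ S x y := by
  classical
  unfold nin
  rw [Finset.mem_filter]

theorem card_prs (S : V → V → Prop) (A B : Finset V) :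
    (prs S A B).card = ∑ x ∈ A, (nin S B x).card := by
  classical
  rw [← Finset.card_sigma]
  apply Finset.card_bij (fun p _ => (⟨p.1, p.2⟩ : (_ : V) × V))
  · rintro ⟨a, b⟩ h
    obtain ⟨h1, h2, h3⟩ := mem_prs.1 h
    exact Finset.mem_sigma.2 ⟨h1, mem_nin.2 ⟨h2, h3⟩⟩
  · rintro ⟨a, b⟩ _ ⟨a', b'⟩ _ h
    cases h
    rfl
  · rintro ⟨a, b⟩ h
    obtain ⟨h1, h2⟩ := Finset.mem_sigma.1 h
    obtain ⟨h3, h4⟩ := mem_nin.1 h2
    exact ⟨(a, b), mem_prs.2 ⟨h1, h3, h4⟩, rfl⟩

/-- weak form of Mantel -/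
theorem mantel {S : V → V → Prop}
    (hS : ∀ x y z, x ≠ y → y ≠ z → x ≠ z → S x y ∨ S y z ∨ S x z) (A : Finset V) :
    A.card ^ 2 ≤ 4 * (prs S A A).card + 4 * A.card := by
  classical
  rcases A.eq_empty_or_nonempty with hA | hA
  · rw [hA]
    simp
  obtain ⟨x₀, hx₀, hmax⟩ := Finset.exists_max_image A
    (fun x => (A.filter fun y => y ≠ x ∧ ¬ S x y).card) hA
  set B : Finset V := A.filter fun y => y ≠ x₀ ∧ ¬ S x₀ y with hB
  have hBA : B ⊆ A := Finset.filter_subset _ _
  -- pairs inside B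
  have h1 : B.offDiag.card ≤ (prs S A A).card := by
    apply Finset.card_le_card
    rintro ⟨a, b⟩ h
    rw [Finset.mem_offDiag] at h
    obtain ⟨ha, hb, hab⟩ := h
    rw [mem_prs]
    refine ⟨hBA ha, hBA hb, ?_⟩
    rw [hB, Finset.mem_filter] at ha hb
    rcases hS x₀ a b (Ne.symm ha.2.1) hab (Ne.symm hb.2.1) with h | h | h
    · exact absurd h ha.2.2
    · exact h
    · exact absurd h hb.2.2
  rw [Finset.offDiag_card] at h1
  -- degrees
  have h2 : ∀ x ∈ A, A.card ≤ (nin S A x).card + (1 + B.card) := by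
    intro x hx
    have h3 : A ⊆ nin S A x ∪ ({x} ∪ A.filter fun y => y ≠ x ∧ ¬ S x y) := by
      intro y hy
      rw [Finset.mem_union, Finset.mem_union, Finset.mem_singleton, Finset.mem_filter, mem_nin]
      by_cases h4 : S x y
      · exact Or.inl ⟨hy, h4⟩
      · by_cases h5 : y = x
        · exact Or.inr (Or.inl h5)
        · exact Or.inr (Or.inr ⟨hy, h5, h4⟩)
    refine le_trans (Finset.card_le_card h3) ?_
    refine le_trans (Finset.card_union_le _ _) ?_
    apply Nat.add_le_add_left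
    refine le_trans (Finset.card_union_le _ _) ?_
    rw [Finset.card_singleton]
    exact Nat.add_le_add_left (hmax x hx) 1
  have h3 : A.card * A.card ≤ (prs S A A).card + A.card * (1 + B.card) := by
    rw [card_prs]
    have h4 : ∑ x ∈ A, A.card ≤ ∑ x ∈ A, ((nin S A x).card + (1 + B.card)) :=
      Finset.sum_le_sum h2
    rw [Finset.sum_const, smul_eq_mul, Finset.sum_add_distrib, Finset.sum_const, smul_eq_mul] at h4
    exact h4
  set a := A.card
  set b := B.card
  set p := (prs S A A).card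
  have h1' : b * b ≤ p + b := by omega
  by_cases hab : a ≤ 2 * b
  · nlinarith
  · push Not at hab
    nlinarith

/-- counting triples -/
theorem triples {P : Finset (V × V)} {W : V × V → Finset V} {C : Set (V × V × V)} {r : ℝ}
    (h : ∀ p ∈ P, ∀ w ∈ W p, (p.1, p.2, w) ∈ C) (hr : ∀ p ∈ P, r ≤ ((W p).card : ℝ)) :
    (P.card : ℝ) * r ≤ (C.ncard : ℝ) := by
  classical
  have h1 : (P.sigma W).card ≤ C.ncard := by
    rw [Set.ncard_eq_toFinset_card' C]
    apply Finset.card_le_card_of_injOn (fun q => (q.1.1, q.1.2, q.2))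
    · rintro ⟨p, w⟩ hq
      rw [Finset.mem_coe, Finset.mem_sigma] at hq
      rw [Finset.mem_coe, Set.mem_toFinset]
      exact h p hq.1 w hq.2
    · rintro ⟨⟨a, b⟩, w⟩ _ ⟨⟨a', b'⟩, w'⟩ _ hq
      simp only [Prod.mk.injEq] at hq
      obtain ⟨h1, h2, h3⟩ := hq
      subst h1
      subst h2
      subst h3
      rfl
  have h2 : (P.card : ℝ) * r ≤ ((P.sigma W).card : ℝ) := by
    rw [Finset.card_sigma]
    push_cast
    rw [← nsmul_eq_mul]
    exact Finset.card_nsmul_le_sum _ _ _ hr
  refine le_trans h2 ?_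
  exact_mod_cast h1

/-- **CHN** -/
theorem chn : ChnStmt := by
  classical
  intro δ κ hδ hδ1 hκ
  set κ' : ℝ := δ ^ 2 / 32 with hκ'
  have hκ'0 : 0 < κ' := by positivity
  refine ⟨min (κ' ^ 3 / 64) (κ * δ / 8), ⌈16 / κ'⌉₊ + ⌈33 / δ ^ 2⌉₊ + ⌈2 / κ⌉₊ + ⌈8 / δ⌉₊ + 1, ?_, ?_⟩
  · exact lt_min (by positivity) (by positivity)
  intro V _ _ hn S hsym hthree hdeg hpart y z
  set n : ℝ := (Fintype.card V : ℝ) with hnn
  have hn' : ((⌈16 / κ'⌉₊ + ⌈33 / δ ^ 2⌉₊ + ⌈2 / κ⌉₊ + ⌈8 / δ⌉₊ + 1 : ℕ) : ℝ) ≤ n := by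
    rw [hnn]
    exact_mod_cast hn
  push_cast at hn'
  have hc1 := Nat.le_ceil (16 / κ')
  have hc2 := Nat.le_ceil (33 / δ ^ 2)
  have hc3 := Nat.le_ceil (2 / κ)
  have hc4 := Nat.le_ceil (8 / δ)
  have hp1 : (0 : ℝ) < 16 / κ' := by positivity
  have hp2 : (0 : ℝ) < 33 / δ ^ 2 := by positivity
  have hp3 : (0 : ℝ) < 2 / κ := by positivity
  have hp4 : (0 : ℝ) < 8 / δ := by positivity
  have hn0 : 0 < n := by linarith
  have hn1 : 16 ≤ κ' * n := by
    have : 16 / κ' ≤ n := by linarith
    rw [div_le_iff₀ hκ'0] at this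
    linarith
  have hn2 : 33 ≤ δ ^ 2 * n := by
    have : 33 / δ ^ 2 ≤ n := by linarith
    rw [div_le_iff₀ (by positivity)] at this
    linarith
  have hn3 : 2 ≤ κ * n := by
    have : 2 / κ ≤ n := by linarith
    rw [div_le_iff₀ hκ] at this
    linarith
  have hn4 : 8 ≤ δ * n := by
    have : 8 / δ ≤ n := by linarith
    rw [div_le_iff₀ hδ] at this
    linarith
  set Ny : Finset V := nin S Finset.univ y with hNy
  set Nz : Finset V := nin S Finset.univ z with hNz
  have hNmem : ∀ x v : V, v ∈ nin S Finset.univ x ↔ S x v := by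
    intro x v
    rw [mem_nin]
    exact ⟨fun h => h.2, fun h => ⟨Finset.mem_univ _, h⟩⟩
  have hNcard : ∀ x : V, δ * n ≤ ((nin S Finset.univ x).card : ℝ) := by
    intro x
    have h1 := hdeg x
    have h2 : {y | S x y}.ncard = (nin S Finset.univ x).card := by
      rw [← Set.ncard_coe_finset]
      apply congrArg Set.ncard
      ext v
      rw [Finset.mem_coe, hNmem]
      rfl
    rw [h2] at h1
    exact h1
  have hcardle : ∀ A : Finset V, (A.card : ℝ) ≤ n := by
    intro A
    rw [hnn]
    exact_mod_cast Finset.card_le_univ A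
  by_cases hcase : κ' * n ^ 2 ≤ ((prs S Ny Nz).card : ℝ)
  · -- case A
    refine le_trans (mul_le_mul_of_nonneg_right (min_le_left _ _) (by positivity)) ?_
    set A : Finset V := Ny.filter fun u => κ' * n / 2 ≤ ((nin S Nz u).card : ℝ) with hA
    have h1 : ((prs S Ny Nz).card : ℝ) ≤ A.card * n + n * (κ' * n / 2) := by
      rw [card_prs]
      push_cast
      have h2 : ∀ u ∈ Ny, ((nin S Nz u).card : ℝ) ≤ (if u ∈ A then n else 0) + κ' * n / 2 := by
        intro u hu
        by_cases huA : u ∈ A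
        · rw [if_pos huA]
          have := hcardle (nin S Nz u)
          have : 0 ≤ κ' * n / 2 := by positivity
          linarith
        · rw [if_neg huA]
          have h3 : ¬ κ' * n / 2 ≤ ((nin S Nz u).card : ℝ) := by
            intro h
            exact huA (Finset.mem_filter.2 ⟨hu, h⟩)
          push Not at h3
          linarith
      refine le_trans (Finset.sum_le_sum h2) ?_
      rw [Finset.sum_add_distrib, Finset.sum_ite_mem, Finset.sum_const, Finset.sum_const,
        nsmul_eq_mul, nsmul_eq_mul]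
      have h3 : Ny ∩ A = A := Finset.inter_eq_right.2 (Finset.filter_subset _ _)
      rw [h3]
      have h4 : (Ny.card : ℝ) * (κ' * n / 2) ≤ n * (κ' * n / 2) :=
        mul_le_mul_of_nonneg_right (hcardle Ny) (by positivity)
      linarith
    have hAc : κ' * n / 2 ≤ (A.card : ℝ) := by
      have h2 : κ' * n / 2 * n ≤ (A.card : ℝ) * n := by nlinarith
      exact le_of_mul_le_mul_right h2 hn0
    have h2 : ((A.card ^ 2 : ℕ) : ℝ) ≤ ((4 * (prs S A A).card + 4 * A.card : ℕ) : ℝ) := by
      exact_mod_cast mantel hthree A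
    push_cast at h2
    have hA8 : (8 : ℝ) ≤ A.card := by linarith
    have h3 : (A.card : ℝ) ^ 2 / 8 ≤ ((prs S A A).card : ℝ) := by nlinarith
    have h4 := triples (P := prs S A A) (W := fun p => nin S Nz p.2)
      (C := {v : V × V × V | S y v.1 ∧ S v.1 v.2.1 ∧ S v.2.1 v.2.2 ∧ S v.2.2 z})
      (r := κ' * n / 2) (by
        rintro ⟨v, u⟩ hp w hw
        obtain ⟨hv, hu, hvu⟩ := mem_prs.1 hp
        obtain ⟨hw1, hw2⟩ := mem_nin.1 hw
        refine ⟨?_, hvu, hw2, ?_⟩
        · exact (hNmem y v).1 (Finset.mem_of_mem_filter _ hv)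
        · exact hsym _ _ ((hNmem z w).1 hw1)) (by
        rintro ⟨v, u⟩ hp
        obtain ⟨_, hu, _⟩ := mem_prs.1 hp
        exact (Finset.mem_filter.1 hu).2)
    refine le_trans ?_ h4
    have h5 : (κ' * n / 2) ^ 2 / 8 ≤ ((prs S A A).card : ℝ) := by
      refine le_trans ?_ h3
      have h6 : 0 ≤ κ' * n / 2 := by positivity
      have h7 : (κ' * n / 2) ^ 2 ≤ (A.card : ℝ) ^ 2 := pow_le_pow_left₀ h6 hAc 2
      linarith
    have h6 : (κ' * n / 2) ^ 2 / 8 * (κ' * n / 2) ≤ ((prs S A A).card : ℝ) * (κ' * n / 2) :=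
      mul_le_mul_of_nonneg_right h5 (by positivity)
    refine le_trans (le_of_eq ?_) h6
    ring
  · -- case B
    push Not at hcase
    refine le_trans (mul_le_mul_of_nonneg_right (min_le_right _ _) (by positivity)) ?_
    set I : Finset V := Ny ∩ Nz with hI
    have h1 : ((I.card ^ 2 : ℕ) : ℝ) ≤ ((4 * (prs S I I).card + 4 * I.card : ℕ) : ℝ) := by
      exact_mod_cast mantel hthree I
    push_cast at h1
    have h2 : ((prs S I I).card : ℝ) ≤ ((prs S Ny Nz).card : ℝ) := by
      have : (prs S I I).card ≤ (prs S Ny Nz).card := by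
        apply Finset.card_le_card
        intro p hp
        obtain ⟨ha, hb, hab⟩ := mem_prs.1 hp
        exact mem_prs.2 ⟨Finset.mem_of_mem_inter_left ha, Finset.mem_of_mem_inter_right hb, hab⟩
      exact_mod_cast this
    have hIc : (I.card : ℝ) < δ / 2 * n := by
      by_contra hcon
      push Not at hcon
      have h3 : (δ / 2 * n) ^ 2 ≤ (I.card : ℝ) ^ 2 := pow_le_pow_left₀ (by positivity) hcon 2
      have h4 := hcardle I
      have h5 : (δ / 2 * n) ^ 2 ≤ 4 * (κ' * n ^ 2) + 4 * n := by linarith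
      rw [hκ'] at h5
      have h6 : δ ^ 2 * n * n ≤ 32 * n := by nlinarith
      have h7 := le_of_mul_le_mul_right h6 hn0
      linarith
    set W : Finset V := Nz \ Ny with hW
    have hWc : δ / 2 * n ≤ (W.card : ℝ) := by
      have h3 : Nz.card ≤ W.card + I.card := by
        have h4 : Nz ⊆ W ∪ I := by
          intro v hv
          by_cases h5 : v ∈ Ny
          · exact Finset.mem_union_right _ (Finset.mem_inter.2 ⟨h5, hv⟩)
          · exact Finset.mem_union_left _ (Finset.mem_sdiff.2 ⟨hv, h5⟩)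
        exact le_trans (Finset.card_le_card h4) (Finset.card_union_le _ _)
      have h3' : (Nz.card : ℝ) ≤ W.card + I.card := by exact_mod_cast h3
      have h4 := hNcard z
      rw [← hNz] at h4
      linarith
    have h3 := hpart (Ny : Set V) (by
        rw [Set.ncard_coe_finset]
        have := hNcard y
        have h5 : 0 < δ * n := by positivity
        rw [← hNy] at this
        linarith) (by
        rw [← Finset.coe_compl, Set.ncard_coe_finset]
        refine le_trans hWc ?_
        have : W.card ≤ (Nyᶜ).card := by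
          apply Finset.card_le_card
          intro v hv
          rw [Finset.mem_compl]
          exact (Finset.mem_sdiff.1 hv).2
        exact_mod_cast this)
    have h4 : {p : V × V | p.1 ∈ (Ny : Set V) ∧ p.2 ∉ (Ny : Set V) ∧ S p.1 p.2}.ncard
        = (prs S Ny Nyᶜ).card := by
      rw [← Set.ncard_coe_finset]
      apply congrArg Set.ncard
      ext p
      rw [Finset.mem_coe, mem_prs, Finset.mem_compl]
      rfl
    rw [h4] at h3
    set P : Finset (V × V) := (prs S Ny Nyᶜ).filter fun p => p.2 ≠ y with hP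
    have hPc : κ * n ^ 2 - n ≤ (P.card : ℝ) := by
      have h5 : (prs S Ny Nyᶜ).card ≤ P.card + Fintype.card V := by
        have h6 : prs S Ny Nyᶜ ⊆ P ∪ (Finset.univ.image fun v : V => (v, y)) := by
          rintro ⟨a, b⟩ hp
          by_cases hb : b = y
          · apply Finset.mem_union_right
            rw [hb]
            exact Finset.mem_image_of_mem _ (Finset.mem_univ a)
          · apply Finset.mem_union_left
            exact Finset.mem_filter.2 ⟨hp, hb⟩
        refine le_trans (Finset.card_le_card h6) ?_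
        refine le_trans (Finset.card_union_le _ _) ?_
        apply Nat.add_le_add_left
        exact Finset.card_image_le
      have h5' : ((prs S Ny Nyᶜ).card : ℝ) ≤ P.card + n := by
        rw [hnn]
        exact_mod_cast h5
      linarith
    have h5 := triples (P := P) (W := fun p => (W.erase y).erase p.2)
      (C := {v : V × V × V | S y v.1 ∧ S v.1 v.2.1 ∧ S v.2.1 v.2.2 ∧ S v.2.2 z})
      (r := δ / 2 * n - 2) (by
        rintro ⟨u, v⟩ hp w hw
        obtain ⟨hp1, hvy⟩ := Finset.mem_filter.1 hp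
        obtain ⟨hu, hv, huv⟩ := mem_prs.1 hp1
        obtain ⟨hwv, hw2⟩ := Finset.mem_erase.1 hw
        obtain ⟨hwy, hw3⟩ := Finset.mem_erase.1 hw2
        obtain ⟨hwz, hwNy⟩ := Finset.mem_sdiff.1 hw3
        have hvN : ¬ S y v := by
          intro h
          exact (Finset.mem_compl.1 hv) ((hNmem y v).2 h)
        have hwN : ¬ S y w := by
          intro h
          exact hwNy ((hNmem y w).2 h)
        refine ⟨(hNmem y u).1 hu, huv, ?_, hsym _ _ ((hNmem z w).1 hwz)⟩
        rcases hthree y v w (Ne.symm hvy) (Ne.symm hwv) (Ne.symm hwy) with h | h | h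
        · exact absurd h hvN
        · exact h
        · exact absurd h hwN) (by
        rintro ⟨u, v⟩ _
        have h6 := Finset.pred_card_le_card_erase (s := W) (a := y)
        have h7 := Finset.pred_card_le_card_erase (s := W.erase y) (a := v)
        have h8 : W.card ≤ ((W.erase y).erase v).card + 2 := by omega
        have h8' : (W.card : ℝ) ≤ (((W.erase y).erase v).card : ℝ) + 2 := by exact_mod_cast h8
        simp only
        linarith)
    refine le_trans ?_ h5
    have h6 : κ * n ^ 2 / 2 ≤ (P.card : ℝ) := by nlinarith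
    have h7 : δ * n / 4 ≤ δ / 2 * n - 2 := by linarith
    have h8 : κ * n ^ 2 / 2 * (δ * n / 4) ≤ (P.card : ℝ) * (δ / 2 * n - 2) :=
      mul_le_mul h6 h7 (by positivity) (by positivity)
    refine le_trans (le_of_eq ?_) h8
    ring

end

end Pool.Agent.KK.H92
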