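import Pool.Agent.KK.StmtsE

/-!
# KK row E_HYB: hybrid isoperimetry
-/

set_option autoImplicit false

namespace Pool.Agent.KK.E.H92

section

variable {V : Type} [Fintype V] [DecidableEq V]

/-- density of a product event -/
theorem dens_prod {ι κ : Type} [Fintype ι] [Fintype κ] (c : ι → Finset V) (d : κ → Finset V)
    (A : (ι → V) → Prop) (B : (κ → V) → Prop) :
    dens (Sum.elim c d) (fun h => A (h ∘ Sum.inl) ∧ B (h ∘ Sum.inr)) = dens c A * dens d B := by
  unfold dens
  rw [Fintype.prod_sum_type]
  simp only [Sum.elim_inl, Sum.elim_inr]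
  have h1 : {f : ι ⊕ κ → V | (∀ i, f i ∈ Sum.elim c d i) ∧ A (f ∘ Sum.inl) ∧ B (f ∘ Sum.inr)} =
      (fun p : (ι → V) × (κ → V) => (Sum.elim p.1 p.2 : ι ⊕ κ → V)) ''
        ({f | (∀ i, f i ∈ c i) ∧ A f} ×ˢ {g | (∀ i, g i ∈ d i) ∧ B g}) := by
    ext f
    constructor
    · rintro ⟨h1, h2, h3⟩
      exact ⟨(f ∘ Sum.inl, f ∘ Sum.inr), ⟨⟨fun i => h1 (Sum.inl i), h2⟩,
        ⟨fun i => h1 (Sum.inr i), h3⟩⟩, Sum.elim_comp_inl_inr f⟩
    · rintro ⟨⟨g, h⟩, ⟨⟨h1, h2⟩, ⟨h3, h4⟩⟩, rfl⟩
      refine ⟨?_, ?_, ?_⟩
      · rintro (i | i)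
        exacts [h1 i, h3 i]
      · rw [Sum.elim_comp_inl]
        exact h2
      · rw [Sum.elim_comp_inr]
        exact h4
  rw [h1, Set.ncard_image_of_injective, Set.ncard_prod]
  · push_cast
    rw [mul_div_mul_comm]
  · rintro ⟨g, h⟩ ⟨g', h'⟩ hgh
    simp only at hgh
    have e1 : g = g' := by
      funext i
      exact congrFun hgh (Sum.inl i)
    have e2 : h = h' := by
      funext i
      exact congrFun hgh (Sum.inr i)
    rw [e1, e2]

/-- first the coordinates of the second copy -/
def hyb {ι : Type} [DecidableEq ι] (s : Finset ι) (g : ι ⊕ ι → V) : ι → V :=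
  fun i => if i ∈ s then g (Sum.inr i) else g (Sum.inl i)

/-- injection of indices behind the hybrid -/
def hi {ι : Type} [DecidableEq ι] (s : Finset ι) : ι → ι ⊕ ι :=
  fun i => if i ∈ s then Sum.inr i else Sum.inl i

theorem hi_inj {ι : Type} [DecidableEq ι] (s : Finset ι) : Function.Injective (hi s) := by
  intro i j h
  unfold hi at h
  by_cases h1 : i ∈ s <;> by_cases h2 : j ∈ s
  · rw [if_pos h1, if_pos h2] at h
    exact Sum.inr.inj h
  · rw [if_pos h1, if_neg h2] at h
    cases h
  · rw [if_neg h1, if_pos h2] at h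
    cases h
  · rw [if_neg h1, if_neg h2] at h
    exact Sum.inl.inj h

theorem comp_hi {ι : Type} [DecidableEq ι] (s : Finset ι) (g : ι ⊕ ι → V) :
    g ∘ hi s = hyb s g := by
  funext i
  unfold hyb hi
  simp only [Function.comp]
  by_cases h1 : i ∈ s
  · rw [if_pos h1, if_pos h1]
  · rw [if_neg h1, if_neg h1]

theorem box_hi {ι : Type} [DecidableEq ι] (c : ι → Finset V) (s : Finset ι) :
    (Sum.elim c c) ∘ hi s = c := by
  funext i
  unfold hi
  simp only [Function.comp]
  by_cases h1 : i ∈ s
  · rw [if_pos h1, Sum.elim_inr]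
  · rw [if_neg h1, Sum.elim_inl]

/-- **E08** -/
theorem e_hyb (h1 : StmtE01) (h2 : StmtE02) : StmtE08 := by
  intro V _ _ ι _ _ c A B hc hAB
  set rest : ℝ := dens c (fun f => ¬ A f ∧ ¬ B f) with hrest
  set flux : ι → ℝ := fun i => dens (Sum.elim c (fun _ : Unit => c i))
    (fun g => A (g ∘ Sum.inl) ∧ B (Function.update (g ∘ Sum.inl) i (g (Sum.inr ())))) with hflux
  have hcc : ∀ i, (Sum.elim c c i).Nonempty := by
    rintro (i | i)
    exacts [hc i, hc i]
  have key : ∀ s : Finset ι, dens (Sum.elim c c) (fun g => A (g ∘ Sum.inl) ∧ ¬ A (hyb s g)) ≤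
      (∑ i ∈ s, flux i) + (s.card : ℝ) * rest := by
    intro s
    induction s using Finset.induction_on with
    | empty =>
      rw [Finset.sum_empty, Finset.card_empty]
      have e1 : {f : ι ⊕ ι → V | (∀ i, f i ∈ Sum.elim c c i) ∧
          (A (f ∘ Sum.inl) ∧ ¬ A (hyb ∅ f))} = ∅ := by
        rw [Set.eq_empty_iff_forall_notMem]
        rintro f ⟨_, h3, h4⟩
        apply h4
        have e2 : hyb ∅ f = f ∘ Sum.inl := by
          funext i
          unfold hyb
          rw [if_neg (Finset.notMem_empty i)]
          rfl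
        rw [e2]
        exact h3
      unfold dens
      rw [e1]
      simp
    | insert j s hj ih =>
      rw [Finset.sum_insert hj, Finset.card_insert_of_notMem hj]
      -- three events
      have e1 : dens (Sum.elim c c) (fun g => A (g ∘ Sum.inl) ∧ ¬ A (hyb (insert j s) g)) ≤
          dens (Sum.elim c c) (fun g => (A (g ∘ Sum.inl) ∧ ¬ A (hyb s g)) ∨
            ((A (hyb s g) ∧ B (hyb (insert j s) g)) ∨
              (¬ A (hyb (insert j s) g) ∧ ¬ B (hyb (insert j s) g)))) := by
        apply (h1 V (ι ⊕ ι) (Sum.elim c c) hcc).2.1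
        rintro g _ ⟨h3, h4⟩
        by_cases h5 : A (hyb s g)
        · by_cases h6 : B (hyb (insert j s) g)
          · exact Or.inr (Or.inl ⟨h5, h6⟩)
          · exact Or.inr (Or.inr ⟨h4, h6⟩)
        · exact Or.inl ⟨h3, h5⟩
      have e2 := (h1 V (ι ⊕ ι) (Sum.elim c c) hcc).2.2.1
        (fun g => A (g ∘ Sum.inl) ∧ ¬ A (hyb s g))
        (fun g => (A (hyb s g) ∧ B (hyb (insert j s) g)) ∨
              (¬ A (hyb (insert j s) g) ∧ ¬ B (hyb (insert j s) g)))
      have e3 := (h1 V (ι ⊕ ι) (Sum.elim c c) hcc).2.2.1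
        (fun g => A (hyb s g) ∧ B (hyb (insert j s) g))
        (fun g => ¬ A (hyb (insert j s) g) ∧ ¬ B (hyb (insert j s) g))
      -- the rest
      have e4 : dens (Sum.elim c c)
          (fun g => ¬ A (hyb (insert j s) g) ∧ ¬ B (hyb (insert j s) g)) = rest := by
        have e5 := h2 V (ι ⊕ ι) ι (Sum.elim c c) (hi (insert j s)) hcc (hi_inj _)
          (fun f => ¬ A f ∧ ¬ B f)
        rw [box_hi] at e5
        rw [hrest, ← e5]
        apply congrArg (dens (Sum.elim c c))
        funext g
        rw [comp_hi]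
      -- the flux
      have e5 : dens (Sum.elim c c) (fun g => A (hyb s g) ∧ B (hyb (insert j s) g)) = flux j := by
        have hφ : Function.Injective
            (Sum.elim (hi s) (fun _ : Unit => Sum.inr j) : ι ⊕ Unit → ι ⊕ ι) := by
          rintro (i | i) (i' | i') h
          · rw [Sum.elim_inl, Sum.elim_inl] at h
            rw [hi_inj s h]
          · rw [Sum.elim_inl, Sum.elim_inr] at h
            exfalso
            unfold hi at h
            by_cases h3 : i ∈ s
            · rw [if_pos h3] at h
              rw [Sum.inr.inj h] at h3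
              exact hj h3
            · rw [if_neg h3] at h
              cases h
          · rw [Sum.elim_inl, Sum.elim_inr] at h
            exfalso
            unfold hi at h
            by_cases h3 : i' ∈ s
            · rw [if_pos h3] at h
              rw [← Sum.inr.inj h] at h3
              exact hj h3
            · rw [if_neg h3] at h
              cases h
          · rfl
        have e6 := h2 V (ι ⊕ ι) (ι ⊕ Unit) (Sum.elim c c)
          (Sum.elim (hi s) (fun _ : Unit => Sum.inr j)) hcc hφ
          (fun g => A (g ∘ Sum.inl) ∧ B (Function.update (g ∘ Sum.inl) j (g (Sum.inr ()))))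
        have e7 : (Sum.elim c c) ∘ (Sum.elim (hi s) (fun _ : Unit => Sum.inr j)) =
            Sum.elim c (fun _ : Unit => c j) := by
          funext i
          rcases i with i | i
          · simp only [Function.comp, Sum.elim_inl]
            exact congrFun (box_hi c s) i
          · simp only [Function.comp, Sum.elim_inr]
        rw [e7] at e6
        rw [hflux]
        simp only
        rw [← e6]
        apply congrArg (dens (Sum.elim c c))
        funext g
        have e8 : (g ∘ (Sum.elim (hi s) (fun _ : Unit => Sum.inr j) : ι ⊕ Unit → ι ⊕ ι)) ∘ Sum.inl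
            = hyb s g := by
          rw [← comp_hi]
          rfl
        have e9 : Function.update (hyb s g) j
            ((g ∘ (Sum.elim (hi s) (fun _ : Unit => Sum.inr j) : ι ⊕ Unit → ι ⊕ ι))
              (Sum.inr ())) = hyb (insert j s) g := by
          funext i
          by_cases h3 : i = j
          · rw [h3, Function.update_self]
            unfold hyb
            rw [if_pos (Finset.mem_insert_self _ _)]
            rfl
          · rw [Function.update_of_ne h3]
            unfold hyb
            by_cases h4 : i ∈ s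
            · rw [if_pos h4, if_pos (Finset.mem_insert_of_mem h4)]
            · rw [if_neg h4, if_neg]
              intro h5
              rcases Finset.mem_insert.1 h5 with h5 | h5
              · exact h3 h5
              · exact h4 h5
        rw [e8, e9]
      rw [e4, e5] at e3
      push_cast
      linarith
  have hfin := key Finset.univ
  have e1 := dens_prod c c A B
  have e2 : dens (Sum.elim c c) (fun h => A (h ∘ Sum.inl) ∧ B (h ∘ Sum.inr)) ≤
      dens (Sum.elim c c) (fun g => A (g ∘ Sum.inl) ∧ ¬ A (hyb Finset.univ g)) := by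
    apply (h1 V (ι ⊕ ι) (Sum.elim c c) hcc).2.1
    rintro g _ ⟨h3, h4⟩
    refine ⟨h3, ?_⟩
    have e3 : hyb Finset.univ g = g ∘ Sum.inr := by
      funext i
      unfold hyb
      rw [if_pos (Finset.mem_univ i)]
      rfl
    rw [e3]
    intro h5
    exact hAB _ h5 h4
  rw [← e1]
  rw [Finset.card_univ] at hfin
  exact le_trans e2 hfin

end

end Pool.Agent.KK.E.H92
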