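import Pool.Agent.KK.StmtsE

/-!
# KK row E_TRI: the trichotomy
-/

set_option autoImplicit false

namespace Pool.Agent.KK.E.H92

section

variable {V : Type} [Fintype V] [DecidableEq V]

open Classical in
/-- the elements of `C` with property `R` -/
noncomputable def fl (C : Finset V) (R : V → Prop) : Finset V := C.filter R

theorem mem_fl {C : Finset V} {R : V → Prop} {x : V} : x ∈ fl C R ↔ x ∈ C ∧ R x := by
  classical
  unfold fl
  rw [Finset.mem_filter]

theorem dens_unit (C : Finset V) (R : V → Prop) :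
    dens (fun _ : Unit => C) (fun g => R (g ())) = ((fl C R).card : ℝ) / (C.card : ℝ) := by
  unfold dens
  have h1 : {f : Unit → V | (∀ i, f i ∈ C) ∧ R (f ())} = (fun x : V => fun _ : Unit => x) ''
      ((fl C R : Finset V) : Set V) := by
    ext f
    constructor
    · rintro ⟨h1, h2⟩
      exact ⟨f (), Finset.mem_coe.2 (mem_fl.2 ⟨h1 (), h2⟩), rfl⟩
    · rintro ⟨x, hx, rfl⟩
      obtain ⟨h1, h2⟩ := mem_fl.1 (Finset.mem_coe.1 hx)
      exact ⟨fun _ => h1, h2⟩
  rw [h1, Set.ncard_image_of_injective, Set.ncard_coe_finset]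
  · simp
  · intro x y h
    exact congrFun h ()

theorem dens_bool (c : Bool → Finset V) (R S : V → Prop) :
    dens c (fun g => R (g true) ∧ S (g false)) =
      (((fl (c true) R).card : ℝ) / ((c true).card : ℝ)) *
      (((fl (c false) S).card : ℝ) / ((c false).card : ℝ)) := by
  unfold dens
  have h1 : {f : Bool → V | (∀ i, f i ∈ c i) ∧ R (f true) ∧ S (f false)} =
      (fun p : V × V => fun t : Bool => if t = true then p.1 else p.2) ''
      (((fl (c true) R : Finset V) : Set V) ×ˢ ((fl (c false) S : Finset V) : Set V)) := by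
    ext f
    constructor
    · rintro ⟨h1, h2, h3⟩
      refine ⟨(f true, f false), ⟨Finset.mem_coe.2 (mem_fl.2 ⟨h1 true, h2⟩),
        Finset.mem_coe.2 (mem_fl.2 ⟨h1 false, h3⟩)⟩, ?_⟩
      funext t
      cases t <;> rfl
    · rintro ⟨⟨x, y⟩, ⟨hx, hy⟩, rfl⟩
      obtain ⟨h1, h2⟩ := mem_fl.1 (Finset.mem_coe.1 hx)
      obtain ⟨h3, h4⟩ := mem_fl.1 (Finset.mem_coe.1 hy)
      refine ⟨?_, h2, h4⟩
      intro t
      cases t
      · exact h3
      · exact h1
  rw [h1, Set.ncard_image_of_injective, Set.ncard_prod, Set.ncard_coe_finset, Set.ncard_coe_finset,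
    Fintype.prod_bool]
  · push_cast
    rw [mul_div_mul_comm]
  · rintro ⟨x, y⟩ ⟨x', y'⟩ h
    have e1 := congrFun h true
    have e2 := congrFun h false
    simp only [if_true] at e1
    simp at e2
    rw [e1, e2]

theorem avg_le (h1 : StmtE01) (h2 : StmtE02) (h3 : StmtE03) {ι κ : Type} [Fintype ι]
    [DecidableEq ι] [Fintype κ] (c : ι → Finset V) (d : κ → Finset V)
    (hc : ∀ i, (c i).Nonempty) (hd : ∀ i, (d i).Nonempty) (P : (ι ⊕ κ → V) → Prop) (τ : ℝ)
    (hτ : 0 ≤ τ) : dens (Sum.elim c d) P ≤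
      dens c (fun f => τ < dens d (fun g => P (Sum.elim f g))) + τ := by
  have hcd : ∀ i, (Sum.elim c d i).Nonempty := by
    rintro (i | i)
    exacts [hc i, hd i]
  set E : (ι → V) → Prop := fun f => τ < dens d (fun g => P (Sum.elim f g)) with hE
  have e1 := (h3 V ι κ c d hc hd).2.2 (fun f => ¬ E f) P τ hτ
    (by
      intro f _ hf
      exact not_lt.1 hf)
  have e2 : dens c (fun f => ¬ E f) ≤ 1 := ((h1 V ι c hc).1 _).2
  have e3 := h2 V (ι ⊕ κ) ι (Sum.elim c d) Sum.inl hcd Sum.inl_injective E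
  rw [Sum.elim_comp_inl] at e3
  have e4 : dens (Sum.elim c d) P ≤
      dens (Sum.elim c d) (fun h => E (h ∘ Sum.inl) ∨ (¬ E (h ∘ Sum.inl) ∧ P h)) := by
    apply (h1 V (ι ⊕ κ) (Sum.elim c d) hcd).2.1
    intro f _ hf
    by_cases h : E (f ∘ Sum.inl)
    · exact Or.inl h
    · exact Or.inr ⟨h, hf⟩
  have e5 := (h1 V (ι ⊕ κ) (Sum.elim c d) hcd).2.2.1 (fun h => E (h ∘ Sum.inl))
    (fun h => ¬ E (h ∘ Sum.inl) ∧ P h)
  have e6 : τ * dens c (fun f => ¬ E f) ≤ τ := by
    nlinarith
  linarith

theorem flux_eq (h2 : StmtE02) {ι : Type} [Fintype ι] [DecidableEq ι] (c : ι → Finset V)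
    (hc : ∀ i, (c i).Nonempty) (A B : (ι → V) → Prop) (i : ι) :
    dens (Sum.elim c (fun _ : Unit => c i))
      (fun g => A (g ∘ Sum.inl) ∧ B (Function.update (g ∘ Sum.inl) i (g (Sum.inr ())))) =
    dens (Sum.elim c (fun _ : Bool => c i))
      (fun g => A (Function.update (g ∘ Sum.inl) i (g (Sum.inr true))) ∧
        B (Function.update (g ∘ Sum.inl) i (g (Sum.inr false)))) := by
  have hcc : ∀ j, (Sum.elim c (fun _ : Bool => c i) j).Nonempty := by
    rintro (j | j)
    exacts [hc j, hc i]
  set φ : ι ⊕ Unit → ι ⊕ Bool :=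
    Sum.elim (fun j => if j = i then Sum.inr true else Sum.inl j) (fun _ => Sum.inr false) with hφ
  have hφi : Function.Injective φ := by
    rintro (j | j) (j' | j') h
    · rw [hφ, Sum.elim_inl, Sum.elim_inl] at h
      by_cases h3 : j = i <;> by_cases h4 : j' = i
      · rw [h3, h4]
      · rw [if_pos h3, if_neg h4] at h
        cases h
      · rw [if_neg h3, if_pos h4] at h
        cases h
      · rw [if_neg h3, if_neg h4] at h
        rw [Sum.inl.inj h]
    · rw [hφ, Sum.elim_inl, Sum.elim_inr] at h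
      by_cases h3 : j = i
      · rw [if_pos h3] at h
        cases h
      · rw [if_neg h3] at h
        cases h
    · rw [hφ, Sum.elim_inl, Sum.elim_inr] at h
      by_cases h3 : j' = i
      · rw [if_pos h3] at h
        cases h
      · rw [if_neg h3] at h
        cases h
    · rfl
  have e1 := h2 V (ι ⊕ Bool) (ι ⊕ Unit) (Sum.elim c (fun _ : Bool => c i)) φ hcc hφi
    (fun g => A (g ∘ Sum.inl) ∧ B (Function.update (g ∘ Sum.inl) i (g (Sum.inr ()))))
  have e2 : (Sum.elim c (fun _ : Bool => c i)) ∘ φ = Sum.elim c (fun _ : Unit => c i) := by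
    funext j
    rcases j with j | j
    · simp only [Function.comp, hφ, Sum.elim_inl]
      by_cases h3 : j = i
      · rw [if_pos h3, Sum.elim_inr, h3]
      · rw [if_neg h3, Sum.elim_inl]
    · rfl
  rw [e2] at e1
  rw [← e1]
  apply congrArg (dens (Sum.elim c (fun _ : Bool => c i)))
  funext g
  have e3 : (g ∘ φ) ∘ Sum.inl = Function.update (g ∘ Sum.inl) i (g (Sum.inr true)) := by
    funext j
    by_cases h3 : j = i
    · rw [h3, Function.update_self]
      simp only [Function.comp, hφ, Sum.elim_inl]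
      rw [if_pos trivial]
    · rw [Function.update_of_ne h3]
      simp only [Function.comp, hφ, Sum.elim_inl]
      rw [if_neg h3]
  rw [e3]
  have e4 : (g ∘ φ) (Sum.inr ()) = g (Sum.inr false) := rfl
  rw [e4, Function.update_idem]

/-- counting pairs -/
theorem pairs_le {C ZA ZB : Finset V} (hA : ZA ⊆ C) (hB : ZB ⊆ C) (R : V → V → Prop) {τ σ : ℝ}
    (h1 : ∀ y ∈ ZB, ((fl C fun z => R z y).card : ℝ) ≤ τ * C.card)
    (h2 : ∀ z ∈ ZA, ((fl C fun y => ¬ R z y).card : ℝ) ≤ σ * C.card) (hτ : 0 ≤ τ) (hσ : 0 ≤ σ) :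
    (ZA.card : ℝ) * ZB.card ≤ (τ + σ) * (C.card : ℝ) ^ 2 := by
  classical
  have e1 : (ZA.card : ℝ) * ZB.card = (∑ y ∈ ZB, ∑ z ∈ ZA, if R z y then (1 : ℝ) else 0) +
      ∑ z ∈ ZA, ∑ y ∈ ZB, if R z y then (0 : ℝ) else 1 := by
    rw [Finset.sum_comm, ← Finset.sum_add_distrib]
    have e2 : ∀ z ∈ ZA, ((∑ y ∈ ZB, if R z y then (1 : ℝ) else 0) +
        ∑ y ∈ ZB, if R z y then (0 : ℝ) else 1) = ZB.card := by
      intro z _
      rw [← Finset.sum_add_distrib]
      have e3 : ∀ y ∈ ZB, ((if R z y then (1 : ℝ) else 0) + if R z y then (0 : ℝ) else 1) = 1 := by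
        intro y _
        by_cases h : R z y
        · rw [if_pos h, if_pos h, add_zero]
        · rw [if_neg h, if_neg h, zero_add]
      rw [Finset.sum_congr rfl e3, Finset.sum_const, nsmul_eq_mul, mul_one]
    rw [Finset.sum_congr rfl e2, Finset.sum_const, nsmul_eq_mul]
  have e2 : (∑ y ∈ ZB, ∑ z ∈ ZA, if R z y then (1 : ℝ) else 0) ≤ ZB.card * (τ * C.card) := by
    rw [← nsmul_eq_mul]
    apply Finset.sum_le_card_nsmul
    intro y hy
    refine le_trans ?_ (h1 y hy)
    rw [Finset.sum_ite, Finset.sum_const_zero, add_zero, Finset.sum_const, nsmul_eq_mul, mul_one]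
    have e3 : (ZA.filter fun z => R z y) ⊆ fl C fun z => R z y := by
      intro z hz
      obtain ⟨h3, h4⟩ := Finset.mem_filter.1 hz
      exact mem_fl.2 ⟨hA h3, h4⟩
    exact_mod_cast Finset.card_le_card e3
  have e3 : (∑ z ∈ ZA, ∑ y ∈ ZB, if R z y then (0 : ℝ) else 1) ≤ ZA.card * (σ * C.card) := by
    rw [← nsmul_eq_mul]
    apply Finset.sum_le_card_nsmul
    intro z hz
    refine le_trans ?_ (h2 z hz)
    rw [Finset.sum_ite, Finset.sum_const_zero, zero_add, Finset.sum_const, nsmul_eq_mul, mul_one]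
    have e3 : (ZB.filter fun y => ¬ R z y) ⊆ fl C fun y => ¬ R z y := by
      intro y hy
      obtain ⟨h3, h4⟩ := Finset.mem_filter.1 hy
      exact mem_fl.2 ⟨hB h3, h4⟩
    exact_mod_cast Finset.card_le_card e3
  have e4 : (ZA.card : ℝ) ≤ C.card := by exact_mod_cast Finset.card_le_card hA
  have e5 : (ZB.card : ℝ) ≤ C.card := by exact_mod_cast Finset.card_le_card hB
  have e6 : (0 : ℝ) ≤ C.card := Nat.cast_nonneg _
  have e7 : (ZB.card : ℝ) * (τ * C.card) ≤ C.card * (τ * C.card) :=
    mul_le_mul_of_nonneg_right e5 (by positivity)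
  have e8 : (ZA.card : ℝ) * (σ * C.card) ≤ C.card * (σ * C.card) :=
    mul_le_mul_of_nonneg_right e4 (by positivity)
  rw [e1]
  nlinarith

/-- the image of an updated tuple -/
theorem image_update {ι : Type} [Fintype ι] [DecidableEq ι] (f : ι → V) (i : ι) (z : V) :
    Finset.univ.image (Function.update f i z) = insert z ((Finset.univ.erase i).image f) := by
  ext x
  rw [Finset.mem_image, Finset.mem_insert, Finset.mem_image]
  constructor
  · rintro ⟨j, _, hj⟩
    by_cases h : j = i
    · rw [h, Function.update_self] at hj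
      exact Or.inl hj.symm
    · rw [Function.update_of_ne h] at hj
      exact Or.inr ⟨j, Finset.mem_erase.2 ⟨h, Finset.mem_univ _⟩, hj⟩
  · rintro (h | ⟨j, hj, hjx⟩)
    · exact ⟨i, Finset.mem_univ _, by rw [Function.update_self, h]⟩
    · obtain ⟨h1, _⟩ := Finset.mem_erase.1 hj
      exact ⟨j, Finset.mem_univ _, by rw [Function.update_of_ne h1, hjx]⟩

theorem swap_update {ι : Type} [Fintype ι] [DecidableEq ι] (M : Finset V) (f : ι → V) (i : ι)
    (y z : V) : insert y (M ∪ Finset.univ.image (Function.update f i z)) =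
      insert z (M ∪ Finset.univ.image (Function.update f i y)) := by
  rw [image_update, image_update, Finset.union_insert, Finset.union_insert, Finset.insert_comm]

/-- density of the letters of colour `b` which complete `Q` to an edge -/
noncomputable def uu (H : Finset (Finset V)) (X M : Finset V) {ι : Type} [Fintype ι] (b : Bool)
    (Q : ι → V) : ℝ :=
  ((fl (sd X b) fun x => insert x (M ∪ Finset.univ.image Q) ∈ H).card : ℝ) / ((sd X b).card : ℝ)

theorem flux_pairs {H : Finset (Finset V)} {X M : Finset V} {ι : Type} [Fintype ι]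
    [DecidableEq ι] (b : Bool) (f : ι → V) (i : ι) {τ δ : ℝ} (hτ : 0 ≤ τ) (hδ : 0 ≤ δ)
    (hb : (sd X b).Nonempty) {ZH ZL : Finset V} (hH : ZH ⊆ sd X b) (hL : ZL ⊆ sd X b)
    (h1 : ∀ y ∈ ZL, uu H X M b (Function.update f i y) ≤ τ)
    (h2 : ∀ z ∈ ZH, 1 - δ - τ ≤ uu H X M b (Function.update f i z)) :
    (ZH.card : ℝ) * ZL.card ≤ (2 * τ + δ) * ((sd X b).card : ℝ) ^ 2 := by
  classical
  have hC : (0 : ℝ) < (sd X b).card := by exact_mod_cast hb.card_pos
  have e1 := pairs_le (C := sd X b) hH hL
    (fun z y => insert z (M ∪ Finset.univ.image (Function.update f i y)) ∈ H) (τ := τ)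
    (σ := τ + δ) (by
      intro y hy
      have h3 := h1 y hy
      unfold uu at h3
      rw [div_le_iff₀ hC] at h3
      exact h3) (by
      intro z hz
      have h3 := h2 z hz
      unfold uu at h3
      rw [le_div_iff₀ hC] at h3
      have h4 : (fl (sd X b) fun y =>
          ¬ insert z (M ∪ Finset.univ.image (Function.update f i y)) ∈ H).card +
          (fl (sd X b) fun x => insert x (M ∪ Finset.univ.image (Function.update f i z)) ∈ H).card
          = (sd X b).card := by
        rw [← Finset.card_union_of_disjoint]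
        · apply congrArg Finset.card
          ext y
          rw [Finset.mem_union, mem_fl, mem_fl, swap_update M f i z y]
          by_cases h5 : insert y (M ∪ Finset.univ.image (Function.update f i z)) ∈ H
          · exact ⟨fun h => h.elim (fun h => h.1) fun h => h.1, fun h => Or.inr ⟨h, h5⟩⟩
          · exact ⟨fun h => h.elim (fun h => h.1) fun h => h.1, fun h => Or.inl ⟨h, h5⟩⟩
        · rw [Finset.disjoint_left]
          intro y hy hy'
          rw [mem_fl] at hy hy'
          rw [swap_update M f i z y] at hy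
          exact hy.2 hy'.2
      have h5 : ((fl (sd X b) fun y =>
          ¬ insert z (M ∪ Finset.univ.image (Function.update f i y)) ∈ H).card : ℝ) +
          ((fl (sd X b) fun x =>
            insert x (M ∪ Finset.univ.image (Function.update f i z)) ∈ H).card : ℝ)
          = ((sd X b).card : ℝ) := by exact_mod_cast h4
      linarith) hτ (by linarith)
  refine le_trans e1 (le_of_eq ?_)
  ring

/-- a good tuple is injective and avoids `M` -/
def Gd {ι : Type} (M : Finset V) (Q : ι → V) : Prop := Function.Injective Q ∧ ∀ i, Q i ∉ M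

theorem card_of_good {ι : Type} [Fintype ι] {M : Finset V} {Q : ι → V} (h : Gd M Q) :
    (M ∪ Finset.univ.image Q).card = M.card + Fintype.card ι := by
  rw [Finset.card_union_of_disjoint, Finset.card_image_of_injective _ h.1, Finset.card_univ]
  rw [Finset.disjoint_left]
  intro x hx hx'
  obtain ⟨i, _, hi⟩ := Finset.mem_image.1 hx'
  rw [← hi] at hx
  exact h.2 i hx

theorem good_of_edge {ι : Type} [Fintype ι] {H : Finset (Finset V)} {k : ℕ} (hU : Uni H k)
    {M : Finset V} {Q : ι → V} (hk : M.card + Fintype.card ι + 1 = k) {x : V}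
    (hx : insert x (M ∪ Finset.univ.image Q) ∈ H) : Gd M Q := by
  have h1 := hU _ hx
  have h2 := Finset.card_insert_le x (M ∪ Finset.univ.image Q)
  have h3 := Finset.card_union_add_card_inter M (Finset.univ.image Q)
  have h4 : (Finset.univ.image Q).card ≤ Fintype.card ι := Finset.card_image_le
  have h5 : (Finset.univ.image Q).card = (Finset.univ : Finset ι).card := by
    rw [Finset.card_univ]
    omega
  have h6 : (M ∩ Finset.univ.image Q).card = 0 := by omega
  constructor
  · have h7 := Finset.card_image_iff.1 h5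
    intro a b hab
    exact h7 (Finset.mem_coe.2 (Finset.mem_univ a)) (Finset.mem_coe.2 (Finset.mem_univ b)) hab
  · intro i hi
    rw [Finset.card_eq_zero] at h6
    have h7 : Q i ∈ M ∩ Finset.univ.image Q :=
      Finset.mem_inter.2 ⟨hi, Finset.mem_image_of_mem Q (Finset.mem_univ i)⟩
    rw [h6] at h7
    exact Finset.notMem_empty _ h7

theorem uu_nonneg {ι : Type} [Fintype ι] (H : Finset (Finset V)) (X M : Finset V) (b : Bool)
    (Q : ι → V) : 0 ≤ uu H X M b Q := by
  unfold uu
  positivity

theorem uu_bad {ι : Type} [Fintype ι] {H : Finset (Finset V)} {k : ℕ} (hU : Uni H k)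
    {X M : Finset V} {Q : ι → V} (hk : M.card + Fintype.card ι + 1 = k) (b : Bool)
    (hQ : ¬ Gd M Q) : uu H X M b Q = 0 := by
  unfold uu
  have h1 : (fl (sd X b) fun x => insert x (M ∪ Finset.univ.image Q) ∈ H) = ∅ := by
    rw [Finset.eq_empty_iff_forall_notMem]
    intro x hx
    exact hQ (good_of_edge hU hk (mem_fl.1 hx).2)
  rw [h1]
  simp

theorem uu_good {ι : Type} [Fintype ι] {H : Finset (Finset V)} {p q B : ℕ} {δ : ℝ}
    {X M : Finset V} {Q : ι → V} (hA : Amb H X p q B δ)
    (hk : M.card + Fintype.card ι + 1 = p + q + 2) (hX : X.Nonempty) (hX' : (Xᶜ).Nonempty)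
    (hQ : Gd M Q) : 1 - δ ≤ uu H X M true Q + uu H X M false Q := by
  classical
  set S : Finset V := M ∪ Finset.univ.image Q with hS
  have h1 : S.card = p + q + 1 := by
    rw [hS, card_of_good hQ]
    omega
  have h2 := hA.dirac S (by
    rw [h1]
    rfl)
  have h3 : (nb H S).card ≤ (fl (sd X true) fun x => insert x S ∈ H).card +
      (fl (sd X false) fun x => insert x S ∈ H).card := by
    refine le_trans (Finset.card_le_card ?_) (Finset.card_union_le _ _)
    intro v hv
    unfold nb at hv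
    rw [Finset.mem_filter] at hv
    obtain ⟨_, _, hv2⟩ := hv
    rw [Finset.mem_union, mem_fl, mem_fl]
    by_cases h : v ∈ X
    · exact Or.inl ⟨h, hv2⟩
    · exact Or.inr ⟨Finset.mem_compl.2 h, hv2⟩
  set U : ℝ := ((fl (sd X true) fun x => insert x S ∈ H).card : ℝ) with hUU
  set W : ℝ := ((fl (sd X false) fun x => insert x S ∈ H).card : ℝ) with hWW
  set n : ℝ := (Fintype.card V : ℝ) with hn
  have h4 : n ≤ 2 * (U + W) := by
    have h5 : ((Fintype.card V : ℕ) : ℝ) ≤ ((2 * ((fl (sd X true) fun x => insert x S ∈ H).card +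
      (fl (sd X false) fun x => insert x S ∈ H).card) : ℕ) : ℝ) := by
      have : Fintype.card V ≤ 2 * ((fl (sd X true) fun x => insert x S ∈ H).card +
        (fl (sd X false) fun x => insert x S ∈ H).card) := by omega
      exact_mod_cast this
    push_cast at h5
    exact h5
  have hc1 : (0 : ℝ) < (sd X true).card := by exact_mod_cast hX.card_pos
  have hc2 : (0 : ℝ) < (sd X false).card := by exact_mod_cast hX'.card_pos
  have hu : U = uu H X M true Q * ((sd X true).card : ℝ) := by
    unfold uu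
    rw [div_mul_cancel₀ _ (ne_of_gt hc1)]
  have hw : W = uu H X M false Q * ((sd X false).card : ℝ) := by
    unfold uu
    rw [div_mul_cancel₀ _ (ne_of_gt hc2)]
  have hhi : ((sd X true).card : ℝ) ≤ (1 + δ) * n / 2 := hA.hi
  have hhi' : ((sd X false).card : ℝ) ≤ (1 + δ) * n / 2 := hA.hi'
  have hn0 : 0 < n := by
    rw [hn]
    have : 0 < Fintype.card V := Fintype.card_pos_iff.2 ⟨hX.choose⟩
    exact_mod_cast this
  have hδ := hA.pos
  have hu0 := uu_nonneg H X M true Q
  have hw0 := uu_nonneg H X M false Q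
  have e1 : uu H X M true Q * ((sd X true).card : ℝ) ≤ uu H X M true Q * ((1 + δ) * n / 2) :=
    mul_le_mul_of_nonneg_left hhi hu0
  have e2 : uu H X M false Q * ((sd X false).card : ℝ) ≤ uu H X M false Q * ((1 + δ) * n / 2) :=
    mul_le_mul_of_nonneg_left hhi' hw0
  have e3 : n ≤ (uu H X M true Q + uu H X M false Q) * ((1 + δ) * n) := by
    rw [hu, hw] at h4
    nlinarith
  have e4 : 1 * n ≤ ((uu H X M true Q + uu H X M false Q) * (1 + δ)) * n := by linarith
  have e5 := le_of_mul_le_mul_right e4 hn0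
  set s : ℝ := uu H X M true Q + uu H X M false Q with hs
  have hs0 : 0 ≤ s := by linarith
  by_contra hcon
  push Not at hcon
  have e6 : s * (1 + δ) < (1 - δ) * (1 + δ) :=
    mul_lt_mul_of_pos_right hcon (by linarith)
  nlinarith [mul_pos hδ hδ]

theorem D_true (h2 : StmtE02) {H : Finset (Finset V)} {X M : Finset V} (a b : ℕ)
    (hX : X.Nonempty) (hX' : (Xᶜ).Nonempty) :
    D H X M (a + 1) b = dens (Sum.elim (lets X a b) (fun _ : Unit => sd X true))
      (fun g => insert (g (Sum.inr ())) (M ∪ Finset.univ.image (g ∘ Sum.inl)) ∈ H) := by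
  have hne : ∀ i, (Sum.elim (lets X a b) (fun _ : Unit => sd X true) i).Nonempty := by
    rintro ((i | i) | i)
    exacts [hX, hX', hX]
  set φ : Fin (a + 1) ⊕ Fin b → (Fin a ⊕ Fin b) ⊕ Unit :=
    Sum.elim (Fin.cases (Sum.inr ()) (fun i => Sum.inl (Sum.inl i)))
      (fun j => Sum.inl (Sum.inr j)) with hφ
  have hφi : Function.Injective φ := by
    rintro (i | j) (i' | j') h
    · revert h
      refine Fin.cases ?_ (fun i => ?_) i <;> refine Fin.cases ?_ (fun i' => ?_) i' <;> intro h
      · rfl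
      · cases h
      · cases h
      · have h3 : (Sum.inl (Sum.inl i) : (Fin a ⊕ Fin b) ⊕ Unit) = Sum.inl (Sum.inl i') := h
        rw [Sum.inl.inj (Sum.inl.inj h3)]
    · revert h
      refine Fin.cases ?_ (fun i => ?_) i <;> intro h
      · cases h
      · cases h
    · revert h
      refine Fin.cases ?_ (fun i => ?_) i' <;> intro h
      · cases h
      · cases h
    · have h3 : (Sum.inl (Sum.inr j) : (Fin a ⊕ Fin b) ⊕ Unit) = Sum.inl (Sum.inr j') := h
      rw [Sum.inr.inj (Sum.inl.inj h3)]
  have e1 := h2 V ((Fin a ⊕ Fin b) ⊕ Unit) (Fin (a + 1) ⊕ Fin b)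
    (Sum.elim (lets X a b) (fun _ : Unit => sd X true)) φ hne hφi
    (fun f => M ∪ Finset.univ.image f ∈ H)
  have e2 : (Sum.elim (lets X a b) (fun _ : Unit => sd X true)) ∘ φ = lets X (a + 1) b := by
    funext i
    rcases i with i | i
    · refine Fin.cases ?_ (fun i => ?_) i
      · rfl
      · rfl
    · rfl
  rw [e2] at e1
  unfold D
  rw [← e1]
  apply congrArg (dens (Sum.elim (lets X a b) (fun _ : Unit => sd X true)))
  funext g
  have e3 : M ∪ Finset.univ.image (g ∘ φ) =
      insert (g (Sum.inr ())) (M ∪ Finset.univ.image (g ∘ Sum.inl)) := by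
    rw [← Finset.union_insert]
    apply congrArg (M ∪ ·)
    ext x
    simp only [Finset.mem_image, Finset.mem_univ, true_and, Finset.mem_insert, Sum.exists,
      Fin.exists_fin_succ, Function.comp, hφ, Sum.elim_inl, Sum.elim_inr, Fin.cases_zero,
      Fin.cases_succ]
    constructor
    · rintro ((h | h) | h)
      · exact Or.inl h.symm
      · exact Or.inr (Or.inl h)
      · exact Or.inr (Or.inr h)
    · rintro (h | (h | h))
      · exact Or.inl (Or.inl h.symm)
      · exact Or.inl (Or.inr h)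
      · exact Or.inr h
  rw [e3]

theorem D_false (h2 : StmtE02) {H : Finset (Finset V)} {X M : Finset V} (a b : ℕ)
    (hX : X.Nonempty) (hX' : (Xᶜ).Nonempty) :
    D H X M a (b + 1) = dens (Sum.elim (lets X a b) (fun _ : Unit => sd X false))
      (fun g => insert (g (Sum.inr ())) (M ∪ Finset.univ.image (g ∘ Sum.inl)) ∈ H) := by
  have hne : ∀ i, (Sum.elim (lets X a b) (fun _ : Unit => sd X false) i).Nonempty := by
    rintro ((i | i) | i)
    exacts [hX, hX', hX']
  set φ : Fin a ⊕ Fin (b + 1) → (Fin a ⊕ Fin b) ⊕ Unit :=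
    Sum.elim (fun i => Sum.inl (Sum.inl i))
      (Fin.cases (Sum.inr ()) (fun j => Sum.inl (Sum.inr j))) with hφ
  have hφi : Function.Injective φ := by
    rintro (i | j) (i' | j') h
    · have h3 : (Sum.inl (Sum.inl i) : (Fin a ⊕ Fin b) ⊕ Unit) = Sum.inl (Sum.inl i') := h
      rw [Sum.inl.inj (Sum.inl.inj h3)]
    · revert h
      refine Fin.cases ?_ (fun i => ?_) j' <;> intro h
      · cases h
      · cases h
    · revert h
      refine Fin.cases ?_ (fun i => ?_) j <;> intro h
      · cases h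
      · cases h
    · revert h
      refine Fin.cases ?_ (fun i => ?_) j <;> refine Fin.cases ?_ (fun i' => ?_) j' <;> intro h
      · rfl
      · cases h
      · cases h
      · have h3 : (Sum.inl (Sum.inr i) : (Fin a ⊕ Fin b) ⊕ Unit) = Sum.inl (Sum.inr i') := h
        rw [Sum.inr.inj (Sum.inl.inj h3)]
  have e1 := h2 V ((Fin a ⊕ Fin b) ⊕ Unit) (Fin a ⊕ Fin (b + 1))
    (Sum.elim (lets X a b) (fun _ : Unit => sd X false)) φ hne hφi
    (fun f => M ∪ Finset.univ.image f ∈ H)
  have e2 : (Sum.elim (lets X a b) (fun _ : Unit => sd X false)) ∘ φ = lets X a (b + 1) := by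
    funext i
    rcases i with i | i
    · rfl
    · refine Fin.cases ?_ (fun i => ?_) i
      · rfl
      · rfl
  rw [e2] at e1
  unfold D
  rw [← e1]
  apply congrArg (dens (Sum.elim (lets X a b) (fun _ : Unit => sd X false)))
  funext g
  have e3 : M ∪ Finset.univ.image (g ∘ φ) =
      insert (g (Sum.inr ())) (M ∪ Finset.univ.image (g ∘ Sum.inl)) := by
    rw [← Finset.union_insert]
    apply congrArg (M ∪ ·)
    ext x
    simp only [Finset.mem_image, Finset.mem_univ, true_and, Finset.mem_insert, Sum.exists,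
      Fin.exists_fin_succ, Function.comp, hφ, Sum.elim_inl, Sum.elim_inr, Fin.cases_zero,
      Fin.cases_succ]
    constructor
    · rintro (h | (h | h))
      · exact Or.inr (Or.inl h)
      · exact Or.inl h.symm
      · exact Or.inr (Or.inr h)
    · rintro (h | (h | h))
      · exact Or.inr (Or.inl h.symm)
      · exact Or.inl h
      · exact Or.inr (Or.inr h)
  rw [e3]

/-- one conditional density -/
theorem cond_uu {H : Finset (Finset V)} {X M : Finset V} {ι : Type} [Fintype ι] (b : Bool)
    (Q : ι → V) :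
    dens (fun _ : Unit => sd X b) (fun g => insert ((Sum.elim Q g : ι ⊕ Unit → V) (Sum.inr ()))
      (M ∪ Finset.univ.image ((Sum.elim Q g : ι ⊕ Unit → V) ∘ Sum.inl)) ∈ H) = uu H X M b Q := by
  have h1 := dens_unit (sd X b) (fun x => insert x (M ∪ Finset.univ.image Q) ∈ H)
  exact h1

/-- **E10** -/
theorem e_tri (h1 : StmtE01) (h2 : StmtE02) (h3 : StmtE03) (h4 : StmtE04) (h8 : StmtE08) :
    StmtE10 := by
  classical
  intro V _ _ H X M p q B a b δ η₀ θ h hA hk hη hη1 hh hh1 hθ hδτ hD hMix
  have hδ := hA.pos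
  have hsmall := hA.small
  set k : ℝ := ((p + q + 2 : ℕ) : ℝ) with hkk
  have hk2 : 2 ≤ k := by
    rw [hkk]
    push_cast
    have : (0 : ℝ) ≤ (p : ℝ) := Nat.cast_nonneg _
    have : (0 : ℝ) ≤ (q : ℝ) := Nat.cast_nonneg _
    linarith
  set τ : ℝ := η₀ * h / (16 * k) with hτ
  have hτ0 : 0 < τ := by positivity
  have hτk : 16 * k * τ = η₀ * h := by
    rw [hτ]
    field_simp
  have hηh : η₀ * h ≤ 1 := by nlinarith
  have hτ32 : 32 * τ ≤ η₀ * h := by nlinarith
  set n : ℝ := (Fintype.card V : ℝ) with hn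
  -- positivity of n
  have hbig := hA.big
  have hn0 : 0 < n := by
    have e1 : 0 < 100 * ((p + q + 2 : ℕ) : ℝ) ^ 2 * ((B + p + q + 2 : ℕ) : ℝ) := by positivity
    have e2 : 0 < δ * n := lt_of_lt_of_le e1 hbig
    exact (pos_iff_pos_of_mul_pos e2).1 hδ
  have hXc : (0 : ℝ) < X.card := by
    have := hA.lo
    have e1 : 0 < (1 - δ) * n / 2 := by
      have : 0 < 1 - δ := by linarith
      positivity
    exact lt_of_lt_of_le e1 this
  have hXc' : (0 : ℝ) < (Xᶜ).card := by
    have := hA.lo'
    have e1 : 0 < (1 - δ) * n / 2 := by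
      have : 0 < 1 - δ := by linarith
      positivity
    exact lt_of_lt_of_le e1 this
  have hX : X.Nonempty := Finset.card_pos.1 (by exact_mod_cast hXc)
  have hX' : (Xᶜ).Nonempty := Finset.card_pos.1 (by exact_mod_cast hXc')
  have hsd : ∀ t, (sd X t).Nonempty := by
    intro t
    cases t
    · exact hX'
    · exact hX
  set c : Fin a ⊕ Fin b → Finset V := lets X a b with hc
  have hcne : ∀ i, (c i).Nonempty := by
    rintro (i | i)
    exacts [hX, hX']
  have hcard : M.card + Fintype.card (Fin a ⊕ Fin b) + 1 = p + q + 2 := by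
    rw [Fintype.card_sum, Fintype.card_fin, Fintype.card_fin]
    omega
  -- elementary properties of densities in the box c
  obtain ⟨hd01, hdmono, hdunion, hdcompl, _, _⟩ := h1 V (Fin a ⊕ Fin b) c hcne
  -- bad tuples are few
  have hbad : dens c (fun f => ¬ Gd M f) ≤ δ := by
    have e1 := h4 V (Fin a ⊕ Fin b) X M (Sum.elim (fun _ => true) (fun _ => false))
      (fun _ => none) (by
        have : 0 < (Fintype.card V : ℝ) := hn0
        exact_mod_cast this) (by
        intro t
        cases t
        · have e2 := hA.lo'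
          change n ≤ 3 * ((Xᶜ).card : ℝ)
          nlinarith
        · have e2 := hA.lo
          change n ≤ 3 * (X.card : ℝ)
          nlinarith) (by
        intro i i' v h5
        cases h5)
    have e2 : bx X (Sum.elim (fun _ : Fin a => true) (fun _ : Fin b => false)) (fun _ => none)
        = c := by
      funext i
      rcases i with i | i
      · rfl
      · rfl
    rw [e2] at e1
    have e3 : dens c (fun f => ¬ Gd M f) ≤ dens c (fun f => ¬ (Function.Injective f ∧
        ∀ i, (none : Option V) = none → f i ∉ M)) := by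
      apply hdmono
      intro f _ h5 h6
      exact h5 ⟨h6.1, fun i => h6.2 i rfl⟩
    refine le_trans e3 (le_trans e1 ?_)
    rw [div_le_iff₀ hn0]
    have e4 : ((Fintype.card (Fin a ⊕ Fin b) : ℕ) : ℝ) ≤ k := by
      rw [hkk]
      have : Fintype.card (Fin a ⊕ Fin b) ≤ p + q + 2 := by omega
      exact_mod_cast this
    have e5 : ((M.card : ℕ) : ℝ) ≤ k := by
      rw [hkk]
      have : M.card ≤ p + q + 2 := by omega
      exact_mod_cast this
    have e6 : (0 : ℝ) ≤ ((Fintype.card (Fin a ⊕ Fin b) : ℕ) : ℝ) := Nat.cast_nonneg _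
    have e7 : (0 : ℝ) ≤ ((M.card : ℕ) : ℝ) := Nat.cast_nonneg _
    have e8 : ((Fintype.card (Fin a ⊕ Fin b) : ℕ) : ℝ) ^ 2 ≤ k ^ 2 := pow_le_pow_left₀ e6 e4 2
    have e9 : ((Fintype.card (Fin a ⊕ Fin b) : ℕ) : ℝ) * ((M.card : ℕ) : ℝ) ≤ k * k :=
      mul_le_mul e4 e5 e7 (by linarith)
    have e10 : (1 : ℝ) ≤ ((B + p + q + 2 : ℕ) : ℝ) := by
      have : 1 ≤ B + p + q + 2 := by omega
      exact_mod_cast this
    have e11 : 100 * k ^ 2 * 1 ≤ 100 * k ^ 2 * ((B + p + q + 2 : ℕ) : ℝ) :=
      mul_le_mul_of_nonneg_left e10 (by positivity)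
    have e12 : 100 * k ^ 2 * 1 ≤ δ * n := le_trans e11 hbig
    nlinarith
  -- the events
  set u : (Fin a ⊕ Fin b → V) → ℝ := fun Q => uu H X M true Q with hu
  set w : (Fin a ⊕ Fin b → V) → ℝ := fun Q => uu H X M false Q with hw
  have hu0 : ∀ Q, 0 ≤ u Q := fun Q => uu_nonneg H X M true Q
  have hw0 : ∀ Q, 0 ≤ w Q := fun Q => uu_nonneg H X M false Q
  have hgood : ∀ Q, Gd M Q → 1 - δ ≤ u Q + w Q := fun Q hQ => uu_good hA hcard hX hX' hQ
  have hbadu : ∀ Q, ¬ Gd M Q → u Q = 0 := fun Q hQ => uu_bad hA.uni hcard true hQ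
  have hbadw : ∀ Q, ¬ Gd M Q → w Q = 0 := fun Q hQ => uu_bad hA.uni hcard false hQ
  set EA : (Fin a ⊕ Fin b → V) → Prop := fun Q => τ < w Q ∧ u Q ≤ τ with hEA
  set EB : (Fin a ⊕ Fin b → V) → Prop := fun Q => τ < u Q ∧ w Q ≤ τ with hEB
  -- both densities large
  have hboth : dens c (fun Q => τ < u Q ∧ τ < w Q) ≤ τ := by
    have e1 := (h3 V (Fin a ⊕ Fin b) Bool c (fun t => sd X t) hcne hsd).2.1
      (fun f => insert (f (Sum.inr true)) (M ∪ Finset.univ.image fun i => f (Sum.inl i)) ∈ H ∧
        insert (f (Sum.inr false)) (M ∪ Finset.univ.image fun i => f (Sum.inl i)) ∈ H)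
      (τ ^ 2) (by positivity)
    have e2 : dens (Sum.elim c fun t => sd X t) (fun f =>
        insert (f (Sum.inr true)) (M ∪ Finset.univ.image fun i => f (Sum.inl i)) ∈ H ∧
        insert (f (Sum.inr false)) (M ∪ Finset.univ.image fun i => f (Sum.inl i)) ∈ H) ≤ τ ^ 3 :=
      le_trans hMix hθ
    have e3 : dens c (fun Q => τ < u Q ∧ τ < w Q) ≤
        dens c (fun f => τ ^ 2 < dens (fun t => sd X t) (fun g =>
          insert ((Sum.elim f g : (Fin a ⊕ Fin b) ⊕ Bool → V) (Sum.inr true))
            (M ∪ Finset.univ.image fun i => (Sum.elim f g : (Fin a ⊕ Fin b) ⊕ Bool → V)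
              (Sum.inl i)) ∈ H ∧
          insert ((Sum.elim f g : (Fin a ⊕ Fin b) ⊕ Bool → V) (Sum.inr false))
            (M ∪ Finset.univ.image fun i => (Sum.elim f g : (Fin a ⊕ Fin b) ⊕ Bool → V)
              (Sum.inl i)) ∈ H)) := by
      apply hdmono
      rintro Q _ ⟨h5, h6⟩
      have e4 := dens_bool (fun t => sd X t)
        (fun x => insert x (M ∪ Finset.univ.image Q) ∈ H)
        (fun x => insert x (M ∪ Finset.univ.image Q) ∈ H)
      change τ ^ 2 < dens (fun t => sd X t) (fun g =>
        insert (g true) (M ∪ Finset.univ.image Q) ∈ H ∧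
        insert (g false) (M ∪ Finset.univ.image Q) ∈ H)
      rw [e4]
      change τ ^ 2 < u Q * w Q
      rw [pow_two]
      exact mul_lt_mul'' h5 h6 hτ0.le hτ0.le
    have e5 : τ ^ 2 * dens c (fun Q => τ < u Q ∧ τ < w Q) ≤ τ ^ 2 * τ := by
      have e6 := mul_le_mul_of_nonneg_left e3 (sq_nonneg τ)
      have e7 : τ ^ 2 * τ = τ ^ 3 := by ring
      rw [e7]
      exact le_trans e6 (le_trans e1 e2)
    exact le_of_mul_le_mul_left e5 (by positivity)
  -- the rest
  have hrest : dens c (fun Q => ¬ EA Q ∧ ¬ EB Q) ≤ τ + δ := by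
    have e1 : dens c (fun Q => ¬ EA Q ∧ ¬ EB Q) ≤
        dens c (fun Q => (τ < u Q ∧ τ < w Q) ∨ ¬ Gd M Q) := by
      apply hdmono
      rintro Q _ ⟨h5, h6⟩
      by_cases h7 : τ < u Q
      · by_cases h8 : τ < w Q
        · exact Or.inl ⟨h7, h8⟩
        · exact absurd ⟨h7, not_lt.1 h8⟩ h6
      · by_cases h8 : τ < w Q
        · exact absurd ⟨h8, not_lt.1 h7⟩ h5
        · right
          intro h9
          have e2 := hgood Q h9
          have e3 := not_lt.1 h7
          have e4 := not_lt.1 h8
          linarith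
    refine le_trans e1 (le_trans (hdunion _ _) ?_)
    linarith
  -- the flux
  have hflux : ∀ i, dens (Sum.elim c (fun _ : Unit => c i))
      (fun g => EA (g ∘ Sum.inl) ∧ EB (Function.update (g ∘ Sum.inl) i (g (Sum.inr ())))) ≤
      2 * τ + δ := by
    intro i
    rw [flux_eq h2 c hcne EA EB i]
    have hci : ∀ t : Bool, ((fun _ : Bool => c i) t).Nonempty := fun _ => hcne i
    have e1 := (h3 V (Fin a ⊕ Fin b) Bool c (fun _ => c i) hcne hci).2.2
      (fun _ => True) (fun g => EA (Function.update (g ∘ Sum.inl) i (g (Sum.inr true))) ∧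
        EB (Function.update (g ∘ Sum.inl) i (g (Sum.inr false)))) (2 * τ + δ) (by linarith) (by
        intro f _ _
        have e2 := dens_bool (fun _ : Bool => c i) (fun x => EA (Function.update f i x))
          (fun x => EB (Function.update f i x))
        change dens (fun _ : Bool => c i) (fun g => EA (Function.update f i (g true)) ∧
          EB (Function.update f i (g false))) ≤ 2 * τ + δ
        rw [e2]
        have hcc : (0 : ℝ) < ((c i).card : ℝ) := by exact_mod_cast (hcne i).card_pos
        rw [div_mul_div_comm, div_le_iff₀ (by positivity)]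
        have hsubA : fl (c i) (fun x => EA (Function.update f i x)) ⊆ c i :=
          fun x hx => (mem_fl.1 hx).1
        have hsubB : fl (c i) (fun x => EB (Function.update f i x)) ⊆ c i :=
          fun x hx => (mem_fl.1 hx).1
        rcases i with i | i
        · -- letter X: A is low, B is high
          have e3 := flux_pairs (H := H) (X := X) (M := M) true f (Sum.inl i) hτ0.le hδ.le
            (hsd true) (ZH := fl (c (Sum.inl i)) (fun x => EB (Function.update f (Sum.inl i) x)))
            (ZL := fl (c (Sum.inl i)) (fun x => EA (Function.update f (Sum.inl i) x)))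
            hsubB hsubA (by
              intro y hy
              exact (mem_fl.1 hy).2.2) (by
              intro z hz
              obtain ⟨_, h5, h6⟩ := mem_fl.1 hz
              have h7 : Gd M (Function.update f (Sum.inl i) z) := by
                by_contra h8
                have h9 := hbadu _ h8
                rw [h9] at h5
                linarith
              have h8 := hgood _ h7
              change 1 - δ - τ ≤ u (Function.update f (Sum.inl i) z)
              linarith)
          have e4 : ((sd X true).card : ℝ) = ((c (Sum.inl i)).card : ℝ) := rfl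
          rw [e4] at e3
          linarith
        · have e3 := flux_pairs (H := H) (X := X) (M := M) false f (Sum.inr i) hτ0.le hδ.le
            (hsd false) (ZH := fl (c (Sum.inr i)) (fun x => EA (Function.update f (Sum.inr i) x)))
            (ZL := fl (c (Sum.inr i)) (fun x => EB (Function.update f (Sum.inr i) x)))
            hsubA hsubB (by
              intro y hy
              exact (mem_fl.1 hy).2.2) (by
              intro z hz
              obtain ⟨_, h5, h6⟩ := mem_fl.1 hz
              have h7 : Gd M (Function.update f (Sum.inr i) z) := by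
                by_contra h8
                have h9 := hbadw _ h8
                rw [h9] at h5
                linarith
              have h8 := hgood _ h7
              change 1 - δ - τ ≤ w (Function.update f (Sum.inr i) z)
              linarith)
          have e4 : ((sd X false).card : ℝ) = ((c (Sum.inr i)).card : ℝ) := rfl
          rw [e4] at e3
          linarith)
    have e2 : dens c (fun _ => True) ≤ 1 := (hd01 _).2
    have e3 : (2 * τ + δ) * dens c (fun _ => True) ≤ 2 * τ + δ := by nlinarith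
    refine le_trans ?_ (le_trans e1 e3)
    have hne : ∀ j, (Sum.elim c (fun _ : Bool => c i) j).Nonempty := by
      rintro (j | j)
      exacts [hcne j, hcne i]
    apply (h1 V ((Fin a ⊕ Fin b) ⊕ Bool) (Sum.elim c (fun _ : Bool => c i)) hne).2.1
    intro g _ h5
    exact ⟨trivial, h5⟩
  -- isoperimetry
  have hiso := h8 V (Fin a ⊕ Fin b) c EA EB hcne (by
    rintro f ⟨h5, h6⟩ ⟨h7, h8⟩
    linarith)
  have hm : ((Fintype.card (Fin a ⊕ Fin b) : ℕ) : ℝ) ≤ k := by
    rw [hkk]
    have : Fintype.card (Fin a ⊕ Fin b) ≤ p + q + 2 := by omega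
    exact_mod_cast this
  have hPAB : dens c EA * dens c EB ≤ 5 * k * τ := by
    refine le_trans hiso ?_
    have e1 : (∑ i, dens (Sum.elim c (fun _ : Unit => c i))
        (fun g => EA (g ∘ Sum.inl) ∧ EB (Function.update (g ∘ Sum.inl) i (g (Sum.inr ()))))) ≤
        ((Fintype.card (Fin a ⊕ Fin b) : ℕ) : ℝ) * (2 * τ + δ) := by
      refine le_trans (Finset.sum_le_card_nsmul _ _ _ (fun i _ => hflux i)) ?_
      rw [Finset.card_univ, nsmul_eq_mul]
    have e2 : (0 : ℝ) ≤ ((Fintype.card (Fin a ⊕ Fin b) : ℕ) : ℝ) := Nat.cast_nonneg _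
    have e3 : ((Fintype.card (Fin a ⊕ Fin b) : ℕ) : ℝ) * dens c (fun f => ¬ EA f ∧ ¬ EB f) ≤
        ((Fintype.card (Fin a ⊕ Fin b) : ℕ) : ℝ) * (τ + δ) :=
      mul_le_mul_of_nonneg_left hrest e2
    have e4 : ((Fintype.card (Fin a ⊕ Fin b) : ℕ) : ℝ) * (3 * τ + 2 * δ) ≤ k * (3 * τ + 2 * δ) :=
      mul_le_mul_of_nonneg_right hm (by linarith)
    have e5 : k * (3 * τ + 2 * δ) ≤ k * (5 * τ) :=
      mul_le_mul_of_nonneg_left (by linarith) (by linarith)
    linarith
  -- the average of w
  have hPA : η₀ - 2 * τ ≤ dens c EA := by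
    rw [D_false h2 a b hX hX'] at hD
    have e1 := avg_le h1 h2 h3 c (fun _ : Unit => sd X false) hcne (fun _ => hsd false)
      (fun g => insert (g (Sum.inr ())) (M ∪ Finset.univ.image (g ∘ Sum.inl)) ∈ H) τ hτ0.le
    have e2 : dens c (fun f => τ < dens (fun _ : Unit => sd X false) (fun g =>
        insert ((Sum.elim f g : (Fin a ⊕ Fin b) ⊕ Unit → V) (Sum.inr ()))
          (M ∪ Finset.univ.image ((Sum.elim f g : (Fin a ⊕ Fin b) ⊕ Unit → V) ∘ Sum.inl)) ∈ H)) ≤
        dens c (fun Q => EA Q ∨ (τ < u Q ∧ τ < w Q)) := by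
      apply hdmono
      intro Q _ h5
      rw [cond_uu] at h5
      by_cases h6 : τ < u Q
      · exact Or.inr ⟨h6, h5⟩
      · exact Or.inl ⟨h5, not_lt.1 h6⟩
    have e3 := hdunion EA (fun Q => τ < u Q ∧ τ < w Q)
    linarith
  -- the average of u
  have hDu : D H X M (a + 1) b ≤ dens c EB + 2 * τ := by
    rw [D_true h2 a b hX hX']
    have e1 := avg_le h1 h2 h3 c (fun _ : Unit => sd X true) hcne (fun _ => hsd true)
      (fun g => insert (g (Sum.inr ())) (M ∪ Finset.univ.image (g ∘ Sum.inl)) ∈ H) τ hτ0.le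
    have e2 : dens c (fun f => τ < dens (fun _ : Unit => sd X true) (fun g =>
        insert ((Sum.elim f g : (Fin a ⊕ Fin b) ⊕ Unit → V) (Sum.inr ()))
          (M ∪ Finset.univ.image ((Sum.elim f g : (Fin a ⊕ Fin b) ⊕ Unit → V) ∘ Sum.inl)) ∈ H)) ≤
        dens c (fun Q => EB Q ∨ (τ < u Q ∧ τ < w Q)) := by
      apply hdmono
      intro Q _ h5
      rw [cond_uu] at h5
      by_cases h6 : τ < w Q
      · exact Or.inr ⟨h5, h6⟩
      · exact Or.inl ⟨h5, not_lt.1 h6⟩
    have e3 := hdunion EB (fun Q => τ < u Q ∧ τ < w Q)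
    linarith
  -- conclusion
  have hη2 : η₀ * h ≤ η₀ := by nlinarith
  have hPA2 : η₀ / 2 ≤ dens c EA := by linarith
  have hPB0 : 0 ≤ dens c EB := (hd01 _).1
  have e1 : η₀ / 2 * dens c EB ≤ η₀ * h * (5 / 16) := by
    have e2 : η₀ / 2 * dens c EB ≤ dens c EA * dens c EB :=
      mul_le_mul_of_nonneg_right hPA2 hPB0
    nlinarith
  have e2 : dens c EB ≤ 10 / 16 * h := by
    have e3 : η₀ * dens c EB ≤ η₀ * (10 / 16 * h) := by linarith
    exact le_of_mul_le_mul_left e3 hη
  have e3 : η₀ * h ≤ h := by nlinarith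
  linarith

end

end Pool.Agent.KK.E.H92
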