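import Pool.Agent.KK.StmtsV
import Pool.Agent.Helper61_KK.GLU
import Pool.Agent.Helper3_KK.PWT

/-!
# KK block BETA, row MTO: loops with two connectors, every residue
-/

set_option autoImplicit false

namespace Pool.Agent.KK.H92

theorem getD_ind {W : List Bool} {i : ℕ} (h : i < W.length) (a b : Bool) :
    W.getD i a = W.getD i b := by
  rw [List.getD_eq_getElem _ _ h, List.getD_eq_getElem _ _ h]

/-- the word of a function -/
def word (k : ℕ) (f : ℕ → Bool) : List Bool := (List.range k).map f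

theorem word_length (k : ℕ) (f : ℕ → Bool) : (word k f).length = k := by
  unfold word
  rw [List.length_map, List.length_range]

theorem word_getD (k : ℕ) (f : ℕ → Bool) {i : ℕ} (h : i < k) (a : Bool) :
    (word k f).getD i a = f i := by
  rw [List.getD_eq_getElem _ _ (by rw [word_length]; exact h)]
  unfold word
  rw [List.getElem_map, List.getElem_range]

theorem word_wt (k : ℕ) (f : ℕ → Bool) :
    wt (word k f) = ((Finset.range k).filter fun i => f i = true).card := by
  induction k with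
  | zero => simp [word, wt]
  | succ k ih =>
    unfold word wt at ih ⊢
    rw [List.range_succ, List.map_append, List.count_append, ih, Finset.range_add_one,
      Finset.filter_insert]
    by_cases h : f k = true
    · rw [if_pos h, Finset.card_insert_of_notMem]
      · simp [h]
      · intro h1
        have := (Finset.mem_filter.1 h1).1
        rw [Finset.mem_range] at this
        omega
    · rw [if_neg h]
      simp [h]

theorem word_self (W : List Bool) : word W.length (fun i => W.getD i false) = W := by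
  apply List.ext_getElem
  · rw [word_length]
  · intro i h1 h2
    have h3 := word_getD W.length (fun i => W.getD i false) h2 false
    rw [List.getD_eq_getElem _ _ h1, List.getD_eq_getElem _ _ h2] at h3
    exact h3

theorem wt_eq (W : List Bool) :
    wt W = ((Finset.range W.length).filter fun i => W.getD i false = true).card := by
  have h := word_wt W.length (fun i => W.getD i false)
  rw [word_self] at h
  exact h

/-- adding two letters -/
theorem wt_add_two {k : ℕ} {W : List Bool} (hW : W.length = k) {c d : ℕ} (hc : c < k) (hd : d < k)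
    (hdc : d ≠ c) (h1 : W.getD c false = false) (h2 : W.getD d false = false) :
    wt (word k fun i => if i = c ∨ i = d then true else W.getD i false) = wt W + 2 := by
  subst hW
  rw [word_wt, wt_eq W]
  have e1 : ((Finset.range W.length).filter fun i =>
      (if i = c ∨ i = d then true else W.getD i false) = true) =
      insert c (insert d ((Finset.range W.length).filter fun i => W.getD i false = true)) := by
    ext i
    rw [Finset.mem_filter, Finset.mem_insert, Finset.mem_insert, Finset.mem_filter,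
      Finset.mem_range]
    constructor
    · rintro ⟨h3, h4⟩
      by_cases h5 : i = c
      · exact Or.inl h5
      · by_cases h6 : i = d
        · exact Or.inr (Or.inl h6)
        · rw [if_neg (by rintro (h | h); exacts [h5 h, h6 h])] at h4
          exact Or.inr (Or.inr ⟨h3, h4⟩)
    · rintro (h3 | h3 | ⟨h3, h4⟩)
      · rw [h3]
        exact ⟨hc, if_pos (Or.inl rfl)⟩
      · rw [h3]
        exact ⟨hd, if_pos (Or.inr rfl)⟩
      · refine ⟨h3, ?_⟩
        by_cases h5 : i = c ∨ i = d
        · rw [if_pos h5]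
        · rw [if_neg h5]
          exact h4
  rw [e1, Finset.card_insert_of_notMem, Finset.card_insert_of_notMem]
  · intro h
    have := (Finset.mem_filter.1 h).2
    rw [h2] at this
    cases this
  · intro h
    rcases Finset.mem_insert.1 h with h | h
    · exact hdc h.symm
    · have := (Finset.mem_filter.1 h).2
      rw [h1] at this
      cases this

section

variable {V : Type} [Fintype V] [DecidableEq V]

/-- a free stretch -/
theorem free_rea (rel : RelStmt) {H : Finset (Finset V)} {X : Finset V} {k p : ℕ} {ε : ℝ}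
    (hk : 1 ≤ k) (hF : FW H X k p ε) (K' : ℝ) {u v : List Bool} {N a : ℕ}
    (h : ∀ K : ℕ, Pl V H X k p ε K u v N a 0) : Rea H X k p ε K' ∅ 0 u v N a := by
  have h1 := rel V H X k p ε ⌈K'⌉₊ u v N a 0 K' hk hF (h _) (by
    have := Nat.le_ceil K'
    push_cast
    linarith)
  rw [Nat.mul_zero] at h1
  exact h1

end

/-- **MTO** -/
theorem mto (wrd : WrdStmt) (put : PutStmt) (pdt : PdtStmt) (rel : RelStmt) (cmo : CmoStmt) :
    MtoStmt := by
  have per := Pool.Agent.KK.H3.per_
  have pwt := Pool.Agent.KK.H3.pwt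
  intro k hk
  refine ⟨100 * k ^ 3, ?_⟩
  intro V _ _ H X p j r ε K K' z₁ z₂ hj hjk hp hr hz hF hT₁ hT₂ hK' hKK
  obtain ⟨W, c, c', d, hWl, hWw, hc, hc', hd, hdc, hdc', hWd, hWc, hrot⟩ :=
    wrd k (j - 1) ((k - r) % k) (by omega) (Nat.mod_lt _ (by omega))
  set r' : ℕ := (k - r) % k with hr'
  have hr'k : r' < k := Nat.mod_lt _ (by omega)
  have hWd' : W.getD d false = false := by
    rw [getD_ind (by rw [hWl]; exact hd) false true]
    exact hWd
  have hWc' : W.getD c false = false := by
    rw [getD_ind (by rw [hWl]; exact hc) false true]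
    exact hWc
  -- the three words
  set W₁ : List Bool := word k fun i => if i = c ∨ i = d then true else W.getD i false with hW₁
  have hW₁l : W₁.length = k := word_length _ _
  have hW₁w : wt W₁ = j + 1 := by
    rw [hW₁, wt_add_two hWl hc hd hdc hWc' hWd', hWw]
    omega
  have hW₁g : ∀ i < k, W₁.getD i false = if i = c ∨ i = d then true else W.getD i false := by
    intro i hi
    rw [hW₁, word_getD k _ hi]
  set W₂ : List Bool := Pool.Agent.KK.per W r' k with hW₂
  have hW₂l : W₂.length = k := Pool.Agent.KK.H3.per_length _ _ _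
  have hW₂w : wt W₂ = j - 1 := by
    rw [hW₂, ← hWl, pwt.1, hWw]
  have hW₂g : ∀ (b : Bool) (i : ℕ), i < k → W₂.getD i b = W.getD ((i + r') % k) false := by
    intro b i hi
    rw [hW₂, Pool.Agent.KK.H3.per_getD W r' k i hi b, hWl, add_comm r' i]
  have hp1 : (j - 1) % 2 = p := by omega
  have hk1 : 1 ≤ k := by omega
  have hkR : (3 : ℝ) ≤ k := by exact_mod_cast hk
  have hk3 : (100 : ℝ) * k ≤ 100 * (k : ℝ) ^ 3 := by nlinarith [mul_pos (by linarith : (0 : ℝ) < k) (by linarith : (0 : ℝ) < k)]
  have hKK' : K' + 100 * (k : ℝ) ≤ K := by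
    have : ((100 * k ^ 3 : ℕ) : ℝ) = 100 * (k : ℝ) ^ 3 := by push_cast; ring
    rw [this] at hKK
    linarith
  -- flips
  obtain ⟨a₁, ha₁, hP1, hP1'⟩ := put V H X k p j ε K (K' + 20 * k) W W₁ c d z₁ (by omega) hF hWl
    hW₁l hc hd (Ne.symm hdc) (by omega) (by rw [hWw]; exact hp1) hT₁ hWc hWd hW₁g
    (by linarith) (by positivity)
  have hW₂c' : W₂.getD c' true = false := by
    rw [hW₂g true c' hc']
    rcases hrot with ⟨h1, h2⟩ | ⟨h1, h2, h3⟩
    · rw [h2 c' hc', ← h1]
      exact hWc'
    · rw [h3 c' hc', if_neg (Ne.symm h1), if_pos rfl]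
  have hW₂d : W₂.getD d true = false := by
    rw [hW₂g true d hd]
    rcases hrot with ⟨h1, h2⟩ | ⟨h1, h2, h3⟩
    · rw [h2 d hd]
      exact hWd'
    · rw [h3 d hd, if_neg hdc, if_neg hdc']
      exact hWd'
  have hW₁₂ : ∀ i < k, W₁.getD i false = if i = c' ∨ i = d then true else W₂.getD i false := by
    intro i hi
    rw [hW₁g i hi, hW₂g false i hi]
    rcases hrot with ⟨h1, h2⟩ | ⟨h1, h2, h3⟩
    · rw [h2 i hi, ← h1]
    · rw [h3 i hi]
      by_cases e1 : i = d
      · rw [if_pos (Or.inr e1), if_pos (Or.inr e1)]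
      · by_cases e2 : i = c
        · rw [if_pos (Or.inl e2), if_neg (by
            rintro (h | h)
            · exact h1 (e2 ▸ h)
            · exact e1 h), if_pos e2]
        · rw [if_neg (by rintro (h | h); exacts [e2 h, e1 h]), if_neg e2]
          by_cases e3 : i = c'
          · rw [if_pos (Or.inl e3), e3]
            exact h2
          · rw [if_neg (by rintro (h | h); exacts [e3 h, e1 h]), if_neg e3]
  obtain ⟨a₂, ha₂, hP3⟩ := pdt V H X k p j ε K (K' + 20 * k) W₂ W₁ c' d z₂ (by omega) hF hW₂l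
    hW₁l hc' hd (Ne.symm hdc') (by omega) (by rw [hW₂w]; exact hp1) hT₂ hW₂c' hW₂d hW₁₂
    (by linarith) (by positivity)
  -- rotation back to the base
  set a₃ : ℕ := wt (Pool.Agent.KK.per W (r' + k - 1) (k - r')) with ha₃
  have ha₃k : a₃ ≤ k := by
    have h1 : a₃ ≤ (Pool.Agent.KK.per W (r' + k - 1) (k - r')).length := by
      rw [ha₃]
      unfold wt
      exact List.count_le_length
    rw [Pool.Agent.KK.H3.per_length] at h1
    omega
  have hcx2 : cx k W₂ = Pool.Agent.KK.per W r' (k - 1) := by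
    unfold cx
    rw [hW₂, ← hWl, pwt.2.2.2.2.1 W r' 0 (W.length - 1) (by rw [hWl]; exact hk1), add_zero]
  have hcx0 : Pool.Agent.KK.per W (r' + (k - r')) (k - 1) = cx k W := by
    unfold cx
    have h1 : r' + (k - r') = 0 + W.length := by
      rw [hWl]
      omega
    rw [h1, pwt.2.1]
  have hP4 : ∀ K : ℕ, Pl V H X k p ε K (cx k W₂) (cx k W) (k - r') a₃ 0 := by
    intro K
    have h1 := per V H X k p ε K W r' (k - r') hk1 hWl (by rw [hWw]; exact hp1)
    rw [hcx0, ← hcx2] at h1
    exact h1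
  refine ⟨W, hWl, hWw, ?_⟩
  intro N a hN hlow hupp
  -- arithmetic
  have hk2 : k ^ 2 ≤ k ^ 3 := Nat.pow_le_pow_right hk1 (by norm_num)
  have hkk2 : k ≤ k ^ 2 := by nlinarith
  obtain ⟨i, rfl⟩ : ∃ i, j = i + 1 := ⟨j - 1, by omega⟩
  have hi1 : i + 1 - 1 = i := rfl
  rw [hi1] at hlow hWw
  have hN1 : 100 * k ^ 3 ≤ N := by
    have e1 : (i + 1 + 1) * N = i * N + 2 * N := by ring
    omega
  have hN0 : (9 * k - r') % k = r := by
    by_cases h0 : r = 0
    · have h1 : r' = 0 := by
        rw [hr', h0, Nat.sub_zero, Nat.mod_self]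
      rw [h1, h0, Nat.sub_zero]
      exact Nat.mul_mod_left 9 k
    · have h1 : r' = k - r := by
        rw [hr']
        exact Nat.mod_eq_of_lt (by omega)
      have h2 : 9 * k - r' = r + 8 * k := by omega
      rw [h2, Nat.add_mul_mod_self_right]
      exact Nat.mod_eq_of_lt hr
  obtain ⟨M, hM⟩ : ∃ M, N = 9 * k - r' + k * M := by
    have h1 : 9 * k - r' ≤ N := by omega
    have h2 : (N - (9 * k - r')) % k = 0 := by
      have h3 : N % k = (9 * k - r') % k := by rw [hN, hN0]
      exact Nat.sub_mod_eq_zero_of_mod_eq h3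
    obtain ⟨M, hM⟩ := Nat.dvd_of_mod_eq_zero h2
    exact ⟨M, by omega⟩
  have hE : ∃ δ M' : ℕ, δ < 2 ∧ M' ≤ M ∧ a = (a₁ + a₂ + a₃) + i * M + 2 * M' + δ := by
    have ha0 : a₁ + a₂ + a₃ ≤ 9 * k := by omega
    have hb1 : k * (a₁ + a₂ + a₃ + i * M) ≤ k * a := by
      have e1 : k * (a₁ + a₂ + a₃) ≤ k * (9 * k) := Nat.mul_le_mul_left _ ha0
      have e2 : k * (i * M) ≤ i * N := by
        have : k * M ≤ N := by omega
        calc k * (i * M) = i * (k * M) := by ring
          _ ≤ i * N := Nat.mul_le_mul_left _ this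
      nlinarith
    have hb2 : a₁ + a₂ + a₃ + i * M ≤ a := Nat.le_of_mul_le_mul_left hb1 (by omega)
    have hb3 : k * a ≤ k * (a₁ + a₂ + a₃ + i * M + 2 * M) := by
      -- (i+2) N = i N + 2 N
      have e1 : (i + 1 + 1) * N = (i + 2) * (9 * k - r') + k * (i * M + 2 * M) := by
        rw [hM]
        ring
      have e2 : (i + 2) * (9 * k - r') ≤ k * (9 * k) :=
        Nat.mul_le_mul (by omega) (by omega)
      nlinarith
    have hb4 : a ≤ a₁ + a₂ + a₃ + i * M + 2 * M := Nat.le_of_mul_le_mul_left hb3 (by omega)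
    refine ⟨(a - (a₁ + a₂ + a₃ + i * M)) % 2, (a - (a₁ + a₂ + a₃ + i * M)) / 2,
      Nat.mod_lt _ (by norm_num), by omega, by omega⟩
  obtain ⟨δ, M', hδ, hM', ha⟩ := hE
  -- first flip with the right count
  have hQ1 : Rea H X k p ε (K' + 20 * k) {z₁} (2 * k) (cx k W) (cx k W₁) (4 * k) (a₁ + δ) := by
    have h1 : δ = 0 ∨ δ = 1 := by omega
    rcases h1 with h1 | h1
    · rw [h1, add_zero]
      exact hP1
    · rw [h1]
      exact hP1'
  have hQ2 : Rea H X k p ε (K' + 20 * k) ∅ 0 (cx k W₁) (cx k W₁) (k * M') ((i + 2) * M') := by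
    apply free_rea rel hk1 hF
    intro K
    have h1 := Pool.Agent.KK.H61.periods per pwt V H X k p ε K W₁ M' hk1 hW₁l
      (by rw [hW₁w]; exact hp)
    rw [hW₁w] at h1
    exact h1
  have hQ4 : Rea H X k p ε (K' + 10 * k) ∅ 0 (cx k W₂) (cx k W) (k - r') a₃ :=
    free_rea rel hk1 hF _ hP4
  have hQ5 : Rea H X k p ε (K' + 5 * k) ∅ 0 (cx k W) (cx k W) (k * (M - M')) (i * (M - M')) := by
    apply free_rea rel hk1 hF
    intro K
    have h1 := Pool.Agent.KK.H61.periods per pwt V H X k p ε K W (M - M') hk1 hWl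
      (by rw [hWw]; exact hp1)
    rw [hWw] at h1
    exact h1
  obtain ⟨_, hcmp, hmono⟩ := cmo
  have hC12 := hcmp V H X {z₁} ∅ k p ε (K' + 20 * k) (K' + 15 * k) (2 * k) 0 _ _ _ _ _ _ _ hk1
    hQ1 hQ2 (Finset.disjoint_empty_right _) (by
      rw [Finset.card_empty]
      push_cast
      linarith)
  have hQ3 : Rea H X k p ε (K' + 15 * k) {z₂} (2 * k) (cx k W₁) (cx k W₂) (4 * k) a₂ :=
    hmono V H X {z₂} k p ε ε (K' + 20 * k) (K' + 15 * k) (2 * k) (2 * k) _ _ _ _ hP3 le_rfl
      (by linarith) le_rfl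
  have hC123 := hcmp V H X ({z₁} ∪ ∅) {z₂} k p ε (K' + 15 * k) (K' + 10 * k) (2 * k + 0) (2 * k)
    _ _ _ _ _ _ _ hk1 hC12 hQ3 (by
      rw [Finset.union_empty, Finset.disjoint_singleton]
      exact hz) (by
      rw [Finset.card_singleton]
      push_cast
      linarith)
  have hC1234 := hcmp V H X ({z₁} ∪ ∅ ∪ {z₂}) ∅ k p ε (K' + 10 * k) (K' + 5 * k)
    (2 * k + 0 + 2 * k) 0 _ _ _ _ _ _ _ hk1 hC123 hQ4 (Finset.disjoint_empty_right _) (by
      rw [Finset.card_empty]
      push_cast
      linarith)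
  have hfin := hcmp V H X ({z₁} ∪ ∅ ∪ {z₂} ∪ ∅) ∅ k p ε (K' + 5 * k) K'
    (2 * k + 0 + 2 * k + 0) 0 _ _ _ _ _ _ _ hk1 hC1234 hQ5 (Finset.disjoint_empty_right _) (by
      rw [Finset.card_empty]
      push_cast
      linarith)
  have hD : ({z₁} ∪ ∅ ∪ {z₂} ∪ ∅ ∪ ∅ : Finset V) = {z₁, z₂} := by
    rw [Finset.union_empty, Finset.union_empty, Finset.union_empty]
    rfl
  rw [hD] at hfin
  have hNN : 4 * k + k * M' + 4 * k + (k - r') + k * (M - M') = N := by
    have h1 : k * M' + k * (M - M') = k * M := by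
      rw [← Nat.mul_add]
      congr 1
      omega
    omega
  have haa : a₁ + δ + (i + 2) * M' + a₂ + a₃ + i * (M - M') = a := by
    have h1 : i * M' + i * (M - M') = i * M := by
      rw [← Nat.mul_add]
      congr 1
      omega
    have h2 : (i + 2) * M' = i * M' + 2 * M' := by ring
    omega
  rw [hNN, haa] at hfin
  exact hmono V H X {z₁, z₂} k p ε ε K' K' _ _ _ _ _ _ hfin le_rfl le_rfl (by omega)

end Pool.Agent.KK.H92
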