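import Pool.Agent.KK.StmtsV

/-!
# KK block BETA, row ONE: arithmetic of one gap
-/

set_option autoImplicit false

namespace Pool.Agent.KK.H92

/-- **ONE** -/
theorem one : OneStmt := by
  intro k K₀ hk
  refine ⟨4 * K₀ + 1, ?_⟩
  intro n x D j hn hj hjk h1 h2 hx hD
  obtain ⟨i, rfl⟩ : ∃ i, j = i + 1 := ⟨j - 1, by omega⟩
  have hi : i + 1 - 1 = i := rfl
  rw [hi] at h1 ⊢
  have hk0 : (0 : ℝ) < k := by
    have : 0 < k := by omega
    exact_mod_cast this
  have hnR : (4 * (K₀ : ℝ) + 1) ≤ n := by exact_mod_cast hn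
  have hn0 : (0 : ℝ) < n := by
    have : (0 : ℝ) ≤ K₀ := Nat.cast_nonneg _
    linarith
  have hkn : (k : ℝ) * (1 / (100 * k) * (n : ℝ)) = n / 100 := by
    field_simp
  obtain ⟨hx1, hx2⟩ := abs_le.1 hx
  have hkx1 : (k : ℝ) * n / 2 - n / 100 ≤ k * x := by
    have := mul_le_mul_of_nonneg_left hx1 hk0.le
    rw [mul_neg, hkn] at this
    linarith
  have hkx2 : (k : ℝ) * x ≤ k * n / 2 + n / 100 := by
    have := mul_le_mul_of_nonneg_left hx2 hk0.le
    rw [hkn] at this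
    linarith
  have hkD : (k : ℝ) * D ≤ n / 100 := by
    have := mul_le_mul_of_nonneg_left hD hk0.le
    rw [hkn] at this
    exact this
  have hD0 : (0 : ℝ) ≤ D := Nat.cast_nonneg _
  have h1' : (2 * (i : ℝ) + 1) ≤ k := by
    have : 2 * i + 1 ≤ k := by omega
    exact_mod_cast this
  have h2' : (k : ℝ) + 1 ≤ 2 * (i : ℝ) + 4 := by
    have : k + 1 ≤ 2 * i + 4 := by omega
    exact_mod_cast this
  have hik : (i : ℝ) ≤ k := by linarith [(Nat.cast_nonneg i : (0 : ℝ) ≤ (i : ℝ))]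
  have hiD : (i : ℝ) * D ≤ n / 100 := le_trans (mul_le_mul_of_nonneg_right hik hD0) hkD
  have e1 : 4 * k * D ≤ n := by
    have : (4 * (k : ℝ) * D) ≤ n := by linarith
    exact_mod_cast this
  have hk1 : (1 : ℝ) ≤ k := by
    have : 1 ≤ k := by omega
    exact_mod_cast this
  have hxlow : (n : ℝ) / 2 - n / 100 ≤ x := by
    have h3 : 1 / (100 * (k : ℝ)) * n ≤ n / 100 := by
      rw [← hkn]
      have h4 : 0 ≤ 1 / (100 * (k : ℝ)) * n := by positivity
      nlinarith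
    linarith
  have e2 : 4 * i * D ≤ x := by
    have : (4 * (i : ℝ) * D) ≤ x := by linarith
    exact_mod_cast this
  refine ⟨n - 4 * k * D, x - 4 * i * D, by omega, by omega, ?_, ?_⟩
  · have : ((i * (n - 4 * k * D) + K₀ : ℕ) : ℝ) ≤ ((k * (x - 4 * i * D) : ℕ) : ℝ) := by
      push_cast
      rw [Nat.cast_sub e1, Nat.cast_sub e2]
      push_cast
      nlinarith
    exact_mod_cast this
  · have : ((k * (x - 4 * i * D) + K₀ : ℕ) : ℝ) ≤ (((i + 1 + 1) * (n - 4 * k * D) : ℕ) : ℝ) := by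
      push_cast
      rw [Nat.cast_sub e1, Nat.cast_sub e2]
      push_cast
      nlinarith
    exact_mod_cast this

end Pool.Agent.KK.H92
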