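import Pool.Agent.KK.StmtsV

/-!
# KK block BETA, row WRD: base words
-/

set_option autoImplicit false

namespace Pool.Agent.KK.H92

/-- sets which are changed in at most one place by a permutation -/
theorem perm_set {α : Type} [Fintype α] [DecidableEq α] (σ : Equiv.Perm α) :
    ∀ t : ℕ, t ≤ Fintype.card α → ∃ S : Finset α, S.card = t ∧
      ((∀ i, σ i ∈ S ↔ i ∈ S) ∨ ∃ c c' : α, c ∉ S ∧ c' ∈ S ∧
        ∀ i, σ i ∈ S ↔ (i = c ∨ (i ≠ c' ∧ i ∈ S))) := by
  intro t
  induction t with
  | zero =>
    intro _
    refine ⟨∅, Finset.card_empty, Or.inl ?_⟩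
    intro i
    exact ⟨fun h => absurd h (Finset.notMem_empty _), fun h => absurd h (Finset.notMem_empty _)⟩
  | succ t ih =>
    intro ht
    obtain ⟨S, hS, h⟩ := ih (by omega)
    rcases h with h | ⟨c, c', hc, hc', h⟩
    · -- invariant set: add any element
      have h1 : S.card < (Finset.univ : Finset α).card := by
        rw [Finset.card_univ]
        omega
      obtain ⟨x, _, hx⟩ := Finset.exists_mem_notMem_of_card_lt_card h1
      refine ⟨insert x S, by rw [Finset.card_insert_of_notMem hx, hS], ?_⟩
      by_cases hfix : σ.symm x = x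
      · left
        intro i
        rw [Finset.mem_insert, Finset.mem_insert, h i]
        have h2 : σ i = x ↔ i = x := by
          constructor
          · intro h3
            rw [← hfix, ← h3, Equiv.symm_apply_apply]
          · intro h3
            rw [h3, ← hfix, Equiv.apply_symm_apply, hfix]
        rw [h2]
      · right
        refine ⟨σ.symm x, x, ?_, Finset.mem_insert_self _ _, ?_⟩
        · rw [Finset.mem_insert]
          rintro (h2 | h2)
          · exact hfix h2
          · apply hx
            rw [← h (σ.symm x), Equiv.apply_symm_apply] at h2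
            exact h2
        · intro i
          rw [Finset.mem_insert, Finset.mem_insert, h i]
          have h2 : σ i = x ↔ i = σ.symm x := by
            constructor
            · intro h3
              rw [← h3, Equiv.symm_apply_apply]
            · intro h3
              rw [h3, Equiv.apply_symm_apply]
          rw [h2]
          constructor
          · rintro (h3 | h3)
            · exact Or.inl h3
            · refine Or.inr ⟨?_, Or.inr h3⟩
              intro h4
              rw [h4] at h3
              exact hx h3
          · rintro (h3 | ⟨h3, h4 | h4⟩)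
            · exact Or.inl h3
            · exact absurd h4 h3
            · exact Or.inr h4
    · -- add the element `c`
      refine ⟨insert c S, by rw [Finset.card_insert_of_notMem hc, hS], ?_⟩
      have h2 : ∀ i, σ i = c ↔ i = σ.symm c := by
        intro i
        constructor
        · intro h3
          rw [← h3, Equiv.symm_apply_apply]
        · intro h3
          rw [h3, Equiv.apply_symm_apply]
      have h3 : ¬ (σ.symm c = c ∨ (σ.symm c ≠ c' ∧ σ.symm c ∈ S)) := by
        rw [← h (σ.symm c), Equiv.apply_symm_apply]
        exact hc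
      push Not at h3
      obtain ⟨h3, h4⟩ := h3
      have hcc' : c ≠ c' := by
        intro h5
        rw [h5] at hc
        exact hc hc'
      by_cases h5 : σ.symm c = c'
      · left
        intro i
        rw [Finset.mem_insert, Finset.mem_insert, h i, h2 i, h5]
        constructor
        · rintro (h6 | h6 | ⟨_, h6⟩)
          · exact Or.inr (h6 ▸ hc')
          · exact Or.inl h6
          · exact Or.inr h6
        · rintro (h6 | h6)
          · exact Or.inr (Or.inl h6)
          · by_cases h7 : i = c'
            · exact Or.inl h7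
            · exact Or.inr (Or.inr ⟨h7, h6⟩)
      · right
        refine ⟨σ.symm c, c', ?_, Finset.mem_insert_of_mem hc', ?_⟩
        · rw [Finset.mem_insert]
          rintro (h6 | h6)
          · exact h3 h6
          · exact h4 h5 h6
        · intro i
          rw [Finset.mem_insert, Finset.mem_insert, h i, h2 i]
          constructor
          · rintro (h6 | h6 | ⟨h6, h7⟩)
            · exact Or.inl h6
            · exact Or.inr ⟨h6 ▸ hcc', Or.inl h6⟩
            · exact Or.inr ⟨h6, Or.inr h7⟩
          · rintro (h6 | ⟨h6, h7 | h7⟩)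
            · exact Or.inl h6
            · exact Or.inr (Or.inl h7)
            · exact Or.inr (Or.inr ⟨h6, h7⟩)

theorem wt_ofFn : ∀ (k : ℕ) (f : Fin k → Bool),
    wt (List.ofFn f) = (Finset.univ.filter fun i => f i = true).card := by
  intro k
  induction k with
  | zero =>
    intro f
    simp [wt]
  | succ k ih =>
    intro f
    have h1 := ih (fun i => f i.succ)
    unfold wt at h1 ⊢
    rw [List.ofFn_succ, List.count_cons, h1, Fin.card_filter_univ_succ]
    by_cases h : f 0 = true
    · rw [if_pos h, h]
      simp
    · rw [if_neg h]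
      simp [h]

/-- **WRD** -/
theorem wrd : WrdStmt := by
  intro k t r ht hr
  have hk : NeZero k := ⟨by omega⟩
  obtain ⟨S, hS, hσ⟩ := perm_set (Equiv.addRight (⟨r, hr⟩ : Fin k)) t (by
    rw [Fintype.card_fin]
    omega)
  -- the word
  have hget : ∀ (b : Bool) (i : Fin k),
      (List.ofFn fun i : Fin k => decide (i ∈ S)).getD i b = decide (i ∈ S) := by
    intro b i
    rw [List.getD_eq_getElem _ _ (by rw [List.length_ofFn]; exact i.2), List.getElem_ofFn]
  have hwt : wt (List.ofFn fun i : Fin k => decide (i ∈ S)) = t := by
    rw [wt_ofFn]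
    have h1 : (Finset.univ.filter fun i : Fin k => decide (i ∈ S) = true) = S := by
      ext i
      simp
    rw [h1, hS]
  have hsh : ∀ i : Fin k, ((i : ℕ) + r) % k = ((Equiv.addRight (⟨r, hr⟩ : Fin k) i : Fin k) : ℕ) := by
    intro i
    rw [Equiv.coe_addRight, Fin.val_add]
  have hcompl : 2 ≤ (Sᶜ).card := by
    rw [Finset.card_compl, Fintype.card_fin, hS]
    omega
  rcases hσ with hσ | ⟨c, c', hc, hc', hσ⟩
  · obtain ⟨c, hc, d, hd, hcd⟩ := Finset.one_lt_card.1 (lt_of_lt_of_le (by norm_num) hcompl)
    rw [Finset.mem_compl] at hc hd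
    refine ⟨List.ofFn fun i : Fin k => decide (i ∈ S), c, c, d, List.length_ofFn, hwt, c.2, c.2,
      d.2, ?_, ?_, ?_, ?_, Or.inl ⟨rfl, ?_⟩⟩
    · intro h
      exact hcd (Fin.ext h.symm)
    · intro h
      exact hcd (Fin.ext h.symm)
    · rw [hget true d]
      exact decide_eq_false hd
    · rw [hget true c]
      exact decide_eq_false hc
    · intro i hi
      have h1 := hsh ⟨i, hi⟩
      simp only at h1
      rw [h1, hget false, hget false ⟨i, hi⟩]
      rw [decide_eq_decide]
      exact hσ ⟨i, hi⟩
  · have h2 : 1 ≤ ((Sᶜ).erase c).card := by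
      rw [Finset.card_erase_of_mem (Finset.mem_compl.2 hc)]
      omega
    obtain ⟨d, hd⟩ := Finset.card_pos.1 h2
    obtain ⟨hdc, hdS⟩ := Finset.mem_erase.1 hd
    rw [Finset.mem_compl] at hdS
    refine ⟨List.ofFn fun i : Fin k => decide (i ∈ S), c, c', d, List.length_ofFn, hwt, c.2, c'.2,
      d.2, ?_, ?_, ?_, ?_, Or.inr ⟨?_, ?_, ?_⟩⟩
    · intro h
      exact hdc (Fin.ext h)
    · intro h
      have : d = c' := Fin.ext h
      rw [this] at hdS
      exact hdS hc'
    · rw [hget true d]
      exact decide_eq_false hdS
    · rw [hget true c]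
      exact decide_eq_false hc
    · intro h
      have : c = c' := Fin.ext h
      rw [this] at hc
      exact hc hc'
    · rw [hget false c']
      exact decide_eq_true hc'
    · intro i hi
      have h1 := hsh ⟨i, hi⟩
      simp only at h1
      rw [h1, hget false, hget false ⟨i, hi⟩]
      have h3 := hσ ⟨i, hi⟩
      have h4 : i = (c : ℕ) ↔ (⟨i, hi⟩ : Fin k) = c := ⟨fun h => Fin.ext h, fun h => congrArg Fin.val h⟩
      have h5 : i = (c' : ℕ) ↔ (⟨i, hi⟩ : Fin k) = c' :=
        ⟨fun h => Fin.ext h, fun h => congrArg Fin.val h⟩
      by_cases h6 : i = (c : ℕ)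
      · rw [if_pos h6]
        exact decide_eq_true (h3.2 (Or.inl (h4.1 h6)))
      · rw [if_neg h6]
        by_cases h7 : i = (c' : ℕ)
        · rw [if_pos h7]
          apply decide_eq_false
          rw [h3]
          rintro (h8 | ⟨h8, _⟩)
          · exact h6 (h4.2 h8)
          · exact h8 (h5.1 h7)
        · rw [if_neg h7, decide_eq_decide, h3]
          constructor
          · rintro (h8 | ⟨_, h8⟩)
            · exact absurd (h4.2 h8) h6
            · exact h8
          · intro h8
            exact Or.inr ⟨fun h9 => h7 (h5.2 h9), h8⟩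

end Pool.Agent.KK.H92
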